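import Mathlib
import Pool.Agent.R528.RM.Basic

set_option autoImplicit false

/-! # Predictable families of sets in sequential random models (helper958) -/

open MeasureTheory Filter Topology

namespace Pool.Agent.U958.SM

open Pool.Agent.R528.RM

variable {Ω : Type} {m0 : MeasurableSpace Ω} {μ : Measure Ω} [IsProbabilityMeasure μ]
  {ℱ : Filtration ℕ m0} {A : ℕ → Set Ω}

/-- the conditional density, clipped -/
noncomputable def dc (μ : Measure Ω) (ℱ : Filtration ℕ m0) (A : ℕ → Set Ω) (n : ℕ) (ω : Ω) : ℝ :=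
  max 0 (min 1 (dens μ ℱ A n ω))

lemma dc_meas (n : ℕ) : StronglyMeasurable[ℱ n] (dc μ ℱ A n) := by
  have h := (dens_meas (μ := μ) (ℱ := ℱ) (A := A) n).measurable
  have h2 : Measurable[ℱ n] (dc μ ℱ A n) :=
    (@measurable_const _ _ _ (ℱ n) 0).max ((@measurable_const _ _ _ (ℱ n) 1).min h)
  exact h2.stronglyMeasurable

omit [IsProbabilityMeasure μ] in
lemma dc_nonneg (n : ℕ) (ω : Ω) : 0 ≤ dc μ ℱ A n ω := le_max_left _ _

omit [IsProbabilityMeasure μ] in
lemma dc_le (n : ℕ) (ω : Ω) : dc μ ℱ A n ω ≤ 1 := max_le zero_le_one (min_le_left _ _)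

lemma dc_eq (hA : ∀ n, MeasurableSet[ℱ n] (A n)) (n : ℕ) : dc μ ℱ A n =ᵐ[μ] dens μ ℱ A n := by
  have hA' : MeasurableSet (A (n + 1)) := ℱ.le (n + 1) _ (hA (n + 1))
  have h0 : (0 : Ω → ℝ) ≤ᵐ[μ] dens μ ℱ A n :=
    condExp_nonneg (Eventually.of_forall fun ω => Set.indicator_nonneg (fun _ _ => zero_le_one) ω)
  have h1 : dens μ ℱ A n ≤ᵐ[μ] fun _ => (1 : ℝ) := by
    have h2 : dens μ ℱ A n ≤ᵐ[μ] μ[(fun _ => (1 : ℝ)) | ℱ n] :=
      condExp_mono ((integrable_const (1 : ℝ)).indicator hA') (integrable_const _)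
        (Eventually.of_forall fun ω => Set.indicator_le_self' (fun _ _ => zero_le_one) ω)
    rwa [condExp_const (ℱ.le n)] at h2
  filter_upwards [h0, h1] with ω h2 h3
  unfold dc
  rw [min_eq_right h3, max_eq_right (show (0 : ℝ) ≤ dens μ ℱ A n ω from h2)]

/-- pulling out -/
lemma int_ind (hA : ∀ n, MeasurableSet[ℱ n] (A n)) (n : ℕ) (G : Ω → ℝ) (hG : StronglyMeasurable[ℱ n] G)
    (C : ℝ) (hC : ∀ ω, |G ω| ≤ C) :
    ∫ ω, G ω * (A (n + 1)).indicator (fun _ => (1 : ℝ)) ω ∂μ = ∫ ω, G ω * dc μ ℱ A n ω ∂μ := by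
  have hA' : MeasurableSet (A (n + 1)) := ℱ.le (n + 1) _ (hA (n + 1))
  have h1 := condExp_stronglyMeasurable_mul_of_bound (μ := μ) (ℱ.le n) hG
    ((integrable_const (1 : ℝ)).indicator hA') C (Eventually.of_forall fun ω => by
      rw [Real.norm_eq_abs]; exact hC ω)
  calc ∫ ω, G ω * (A (n + 1)).indicator (fun _ => (1 : ℝ)) ω ∂μ
      = ∫ ω, (μ[G * (A (n + 1)).indicator (fun _ => (1 : ℝ)) | ℱ n]) ω ∂μ := by
        rw [integral_condExp (ℱ.le n)]
        rfl
    _ = ∫ ω, G ω * dc μ ℱ A n ω ∂μ := by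
        refine integral_congr_ae ?_
        filter_upwards [h1, dc_eq (μ := μ) hA n] with ω h2 h3
        rw [h2, h3]
        rfl

open Classical in
/-- the exponential supermartingale of a family `J`; `J (j + 1)` is the event that `j + 1` belongs to the set -/
noncomputable def M (μ : Measure Ω) (ℱ : Filtration ℕ m0) (A J : ℕ → Set Ω) (lam : ℝ) : ℕ → Ω → ℝ
  | 0, _ => 1
  | T + 1, ω => M μ ℱ A J lam T ω *
      (Real.exp (-(Real.exp lam - 1) * ((J (T + 1)).indicator (fun _ => (1 : ℝ)) ω * dc μ ℱ A T ω)) *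
        (1 + (Real.exp lam - 1) * ((J (T + 1)).indicator (fun _ => (1 : ℝ)) ω *
          (A (T + 1)).indicator (fun _ => (1 : ℝ)) ω)))

omit [IsProbabilityMeasure μ] in
lemma ind01 (B : Set Ω) (ω : Ω) : B.indicator (fun _ => (1 : ℝ)) ω = 0 ∨ B.indicator (fun _ => (1 : ℝ)) ω = 1 := by
  by_cases h : ω ∈ B
  · exact Or.inr (Set.indicator_of_mem h _)
  · exact Or.inl (Set.indicator_of_notMem h _)

omit [IsProbabilityMeasure μ] in
lemma M_bound (J : ℕ → Set Ω) (lam : ℝ) (T : ℕ) : ∃ C : ℝ, ∀ ω, |M μ ℱ A J lam T ω| ≤ C := by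
  induction T with
  | zero => exact ⟨1, fun ω => by simp [M]⟩
  | succ T ih =>
    obtain ⟨C, hC⟩ := ih
    refine ⟨C * (Real.exp |Real.exp lam - 1| * (1 + |Real.exp lam - 1|)), fun ω => ?_⟩
    have hC0 : 0 ≤ C := (abs_nonneg _).trans (hC ω)
    have h1 := dc_nonneg (μ := μ) (ℱ := ℱ) (A := A) T ω
    have h2 := dc_le (μ := μ) (ℱ := ℱ) (A := A) T ω
    unfold M
    rw [abs_mul, abs_mul, abs_of_pos (Real.exp_pos _)]
    have e1 : Real.exp (-(Real.exp lam - 1) * ((J (T + 1)).indicator (fun _ => (1 : ℝ)) ω * dc μ ℱ A T ω)) ≤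
        Real.exp |Real.exp lam - 1| := by
      apply Real.exp_le_exp.2
      refine (le_abs_self _).trans ?_
      rw [abs_mul, abs_neg]
      refine mul_le_of_le_one_right (abs_nonneg _) ?_
      rcases ind01 (J (T + 1)) ω with h | h
      · rw [h]; simp
      · rw [h, one_mul, abs_of_nonneg h1]; exact h2
    have e2 : |1 + (Real.exp lam - 1) * ((J (T + 1)).indicator (fun _ => (1 : ℝ)) ω *
          (A (T + 1)).indicator (fun _ => (1 : ℝ)) ω)| ≤ 1 + |Real.exp lam - 1| := by
      refine (abs_add_le _ _).trans ?_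
      rw [abs_one, abs_mul]
      gcongr
      refine mul_le_of_le_one_right (abs_nonneg _) ?_
      rcases ind01 (J (T + 1)) ω with h | h <;> rcases ind01 (A (T + 1)) ω with h' | h' <;> rw [h, h'] <;> simp
    gcongr
    exact hC ω

lemma M_meas (hA : ∀ n, MeasurableSet[ℱ n] (A n)) (J : ℕ → Set Ω)
    (hJ : ∀ n, MeasurableSet[ℱ n] (J (n + 1))) (lam : ℝ) (T : ℕ) : StronglyMeasurable[ℱ T] (M μ ℱ A J lam T) := by
  induction T with
  | zero => exact stronglyMeasurable_const
  | succ T ih =>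
    have h1 : Measurable[ℱ (T + 1)] (M μ ℱ A J lam T) := (ih.mono (ℱ.mono (Nat.le_succ T))).measurable
    have h2 : Measurable[ℱ (T + 1)] (dc μ ℱ A T) :=
      ((dc_meas (μ := μ) (ℱ := ℱ) (A := A) T).mono (ℱ.mono (Nat.le_succ T))).measurable
    have h3 : Measurable[ℱ (T + 1)] ((J (T + 1)).indicator (fun _ => (1 : ℝ))) :=
      (@measurable_const _ _ _ (ℱ (T + 1)) (1 : ℝ)).indicator (ℱ.mono (Nat.le_succ T) _ (hJ T))
    have h4 : Measurable[ℱ (T + 1)] ((A (T + 1)).indicator (fun _ => (1 : ℝ))) :=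
      (@measurable_const _ _ _ (ℱ (T + 1)) (1 : ℝ)).indicator (hA (T + 1))
    have h5 : Measurable[ℱ (T + 1)] (M μ ℱ A J lam (T + 1)) := by
      show Measurable[ℱ (T + 1)] (fun ω => M μ ℱ A J lam T ω *
        (Real.exp (-(Real.exp lam - 1) * ((J (T + 1)).indicator (fun _ => (1 : ℝ)) ω * dc μ ℱ A T ω)) *
        (1 + (Real.exp lam - 1) * ((J (T + 1)).indicator (fun _ => (1 : ℝ)) ω *
          (A (T + 1)).indicator (fun _ => (1 : ℝ)) ω))))
      exact h1.mul ((Real.measurable_exp.comp ((h3.mul h2).const_mul _)).mul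
        (((h3.mul h4).const_mul _).const_add 1))
    exact h5.stronglyMeasurable

lemma M_int (hA : ∀ n, MeasurableSet[ℱ n] (A n)) (J : ℕ → Set Ω)
    (hJ : ∀ n, MeasurableSet[ℱ n] (J (n + 1))) (lam : ℝ) (T : ℕ) : Integrable (M μ ℱ A J lam T) μ := by
  obtain ⟨C, hC⟩ := M_bound (μ := μ) (ℱ := ℱ) (A := A) J lam T
  exact Integrable.of_bound ((M_meas hA J hJ lam T).mono (ℱ.le T)).aestronglyMeasurable C
    (Eventually.of_forall fun ω => by rw [Real.norm_eq_abs]; exact hC ω)

omit [IsProbabilityMeasure μ] in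
lemma M_nonneg (J : ℕ → Set Ω) (lam : ℝ) (T : ℕ) (ω : Ω) : 0 ≤ M μ ℱ A J lam T ω := by
  induction T with
  | zero => simp [M]
  | succ T ih =>
    unfold M
    refine mul_nonneg ih (mul_nonneg (Real.exp_pos _).le ?_)
    have := Real.exp_pos lam
    rcases ind01 (J (T + 1)) ω with h | h <;> rcases ind01 (A (T + 1)) ω with h' | h' <;> rw [h, h'] <;> simp [this.le]

theorem M_le_one (hA : ∀ n, MeasurableSet[ℱ n] (A n)) (J : ℕ → Set Ω)
    (hJ : ∀ n, MeasurableSet[ℱ n] (J (n + 1))) (lam : ℝ) (T : ℕ) : ∫ ω, M μ ℱ A J lam T ω ∂μ ≤ 1 := by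
  induction T with
  | zero => simp [M]
  | succ T ih =>
    refine le_trans ?_ ih
    set c : ℝ := Real.exp lam - 1 with hc
    set G : Ω → ℝ := fun ω => M μ ℱ A J lam T ω *
      Real.exp (-c * ((J (T + 1)).indicator (fun _ => (1 : ℝ)) ω * dc μ ℱ A T ω)) with hG
    have hGm : Measurable[ℱ T] G := by
      have h1 : Measurable[ℱ T] (M μ ℱ A J lam T) := (M_meas hA J hJ lam T).measurable
      have h2 : Measurable[ℱ T] (dc μ ℱ A T) := (dc_meas (μ := μ) (ℱ := ℱ) (A := A) T).measurable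
      have h3 : Measurable[ℱ T] ((J (T + 1)).indicator (fun _ => (1 : ℝ))) :=
        (@measurable_const _ _ _ (ℱ T) (1 : ℝ)).indicator (hJ T)
      exact h1.mul (Real.measurable_exp.comp ((h3.mul h2).const_mul _))
    have h3 : Measurable[ℱ T] ((J (T + 1)).indicator (fun _ => (1 : ℝ))) :=
        (@measurable_const _ _ _ (ℱ T) (1 : ℝ)).indicator (hJ T)
    obtain ⟨C, hC⟩ := M_bound (μ := μ) (ℱ := ℱ) (A := A) J lam T
    have hGb : ∀ ω, |G ω| ≤ C * Real.exp |c| := by
      intro ω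
      have h1 := dc_nonneg (μ := μ) (ℱ := ℱ) (A := A) T ω
      have h2 := dc_le (μ := μ) (ℱ := ℱ) (A := A) T ω
      rw [hG]
      simp only
      rw [abs_mul, abs_of_pos (Real.exp_pos _)]
      have hC0 : 0 ≤ C := (abs_nonneg _).trans (hC ω)
      gcongr
      · exact hC ω
      · refine (le_abs_self _).trans ?_
        rw [abs_mul, abs_neg]
        refine mul_le_of_le_one_right (abs_nonneg _) ?_
        rcases ind01 (J (T + 1)) ω with h | h
        · rw [h]; simp
        · rw [h, one_mul, abs_of_nonneg h1]; exact h2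
    set G1 : Ω → ℝ := fun ω => G ω * (J (T + 1)).indicator (fun _ => (1 : ℝ)) ω with hG1
    have hG1m : Measurable[ℱ T] G1 := hGm.mul h3
    have hG1b : ∀ ω, |G1 ω| ≤ C * Real.exp |c| := by
      intro ω
      rw [hG1]
      simp only
      rw [abs_mul]
      refine (mul_le_of_le_one_right (abs_nonneg _) ?_).trans (hGb ω)
      rcases ind01 (J (T + 1)) ω with h | h <;> rw [h] <;> simp
    have hA' : MeasurableSet (A (T + 1)) := ℱ.le (T + 1) _ (hA (T + 1))
    have iG : Integrable G μ := Integrable.of_bound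
      ((hGm.stronglyMeasurable).mono (ℱ.le T)).aestronglyMeasurable _
      (Eventually.of_forall fun ω => by rw [Real.norm_eq_abs]; exact hGb ω)
    have iG1 : Integrable G1 μ := Integrable.of_bound
      ((hG1m.stronglyMeasurable).mono (ℱ.le T)).aestronglyMeasurable _
      (Eventually.of_forall fun ω => by rw [Real.norm_eq_abs]; exact hG1b ω)
    have iG1A : Integrable (fun ω => G1 ω * (A (T + 1)).indicator (fun _ => (1 : ℝ)) ω) μ := by
      have e : (fun ω => G1 ω * (A (T + 1)).indicator (fun _ => (1 : ℝ)) ω) = (A (T + 1)).indicator G1 := by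
        funext ω
        by_cases h : ω ∈ A (T + 1)
        · rw [Set.indicator_of_mem h, Set.indicator_of_mem h, mul_one]
        · rw [Set.indicator_of_notMem h, Set.indicator_of_notMem h, mul_zero]
      rw [e]
      exact iG1.indicator hA'
    have idc : Integrable (fun ω => G1 ω * dc μ ℱ A T ω) μ := by
      refine Integrable.of_bound (C := C * Real.exp |c|)
        (((hG1m.mul (dc_meas (μ := μ) (ℱ := ℱ) (A := A) T).measurable).stronglyMeasurable).mono
          (ℱ.le T)).aestronglyMeasurable (Eventually.of_forall fun ω => ?_)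
      rw [Real.norm_eq_abs]
      show |G1 ω * dc μ ℱ A T ω| ≤ _
      rw [abs_mul]
      refine (mul_le_of_le_one_right (abs_nonneg _) ?_).trans (hG1b ω)
      rw [abs_of_nonneg (dc_nonneg T ω)]
      exact dc_le T ω
    have e1 : ∀ ω, M μ ℱ A J lam (T + 1) ω = G ω + c * (G1 ω * (A (T + 1)).indicator (fun _ => (1 : ℝ)) ω) := by
      intro ω
      show M μ ℱ A J lam T ω * _ = _
      rw [hG1, hG]
      simp only
      ring
    calc ∫ ω, M μ ℱ A J lam (T + 1) ω ∂μ
        = ∫ ω, (G ω + c * (G1 ω * (A (T + 1)).indicator (fun _ => (1 : ℝ)) ω)) ∂μ :=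
          integral_congr_ae (Eventually.of_forall e1)
      _ = ∫ ω, G ω ∂μ + c * ∫ ω, G1 ω * (A (T + 1)).indicator (fun _ => (1 : ℝ)) ω ∂μ := by
          rw [integral_add iG (iG1A.const_mul c), integral_const_mul]
      _ = ∫ ω, G ω ∂μ + c * ∫ ω, G1 ω * dc μ ℱ A T ω ∂μ := by
          rw [int_ind hA T G1 hG1m.stronglyMeasurable _ hG1b]
      _ = ∫ ω, (G ω + c * (G1 ω * dc μ ℱ A T ω)) ∂μ := by
          rw [integral_add iG (idc.const_mul c), integral_const_mul]
      _ ≤ ∫ ω, M μ ℱ A J lam T ω ∂μ := by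
          refine integral_mono (iG.add (idc.const_mul c)) (M_int hA J hJ lam T) fun ω => ?_
          have hM := M_nonneg (μ := μ) (ℱ := ℱ) (A := A) J lam T ω
          rw [hG1, hG]
          simp only
          set y := (J (T + 1)).indicator (fun _ => (1 : ℝ)) ω * dc μ ℱ A T ω with hy
          have h5 : 1 + c * y ≤ Real.exp (c * y) := by
            have := Real.add_one_le_exp (c * y)
            linarith
          have h6 : Real.exp (-c * y) * Real.exp (c * y) = 1 := by
            rw [← Real.exp_add]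
            simp
          calc M μ ℱ A J lam T ω * Real.exp (-c * y) + c * (M μ ℱ A J lam T ω * Real.exp (-c * y) *
                (J (T + 1)).indicator (fun _ => (1 : ℝ)) ω * dc μ ℱ A T ω)
              = M μ ℱ A J lam T ω * Real.exp (-c * y) * (1 + c * y) := by rw [hy]; ring
            _ ≤ M μ ℱ A J lam T ω * Real.exp (-c * y) * Real.exp (c * y) := by
                have : 0 ≤ M μ ℱ A J lam T ω * Real.exp (-c * y) := mul_nonneg hM (Real.exp_pos _).le
                gcongr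
            _ = M μ ℱ A J lam T ω := by rw [mul_assoc, h6, mul_one]

end Pool.Agent.U958.SM
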