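import Mathlib
import Pool.Agent.U958.SM.Exp

set_option autoImplicit false

/-! # Laws for predictable families of sets (helper958) -/

open MeasureTheory Filter Topology

namespace Pool.Agent.U958.SM

open Pool.Agent.R528.RM

variable {Ω : Type} {m0 : MeasurableSpace Ω} {μ : Measure Ω} [IsProbabilityMeasure μ]
  {ℱ : Filtration ℕ m0} {A : ℕ → Set Ω}

/-- the number of the `j ≤ T` in `J` and `A` -/
noncomputable def Xs (A J : ℕ → Set Ω) (T : ℕ) (ω : Ω) : ℝ :=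
  ∑ j ∈ Finset.range T, (J (j + 1)).indicator (fun _ => (1 : ℝ)) ω * (A (j + 1)).indicator (fun _ => (1 : ℝ)) ω

/-- the compensator -/
noncomputable def Ds (μ : Measure Ω) (ℱ : Filtration ℕ m0) (A J : ℕ → Set Ω) (T : ℕ) (ω : Ω) : ℝ :=
  ∑ j ∈ Finset.range T, (J (j + 1)).indicator (fun _ => (1 : ℝ)) ω * dc μ ℱ A j ω

omit [IsProbabilityMeasure μ] in
lemma M_eq (J : ℕ → Set Ω) (lam : ℝ) (T : ℕ) (ω : Ω) :
    M μ ℱ A J lam T ω = Real.exp (lam * Xs A J T ω - (Real.exp lam - 1) * Ds μ ℱ A J T ω) := by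
  induction T with
  | zero => simp [M, Xs, Ds]
  | succ T ih =>
    have e : (1 + (Real.exp lam - 1) * ((J (T + 1)).indicator (fun _ => (1 : ℝ)) ω *
          (A (T + 1)).indicator (fun _ => (1 : ℝ)) ω)) =
        Real.exp (lam * ((J (T + 1)).indicator (fun _ => (1 : ℝ)) ω *
          (A (T + 1)).indicator (fun _ => (1 : ℝ)) ω)) := by
      rcases ind01 (J (T + 1)) ω with h | h <;> rcases ind01 (A (T + 1)) ω with h' | h' <;> rw [h, h'] <;> simp
    show M μ ℱ A J lam T ω * (_ * _) = _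
    rw [ih, e, ← Real.exp_add, ← Real.exp_add]
    unfold Xs Ds
    rw [Finset.sum_range_succ, Finset.sum_range_succ]
    congr 1
    ring

lemma bc (hA : ∀ n, MeasurableSet[ℱ n] (A n)) (J : ℕ → ℕ → Set Ω)
    (hJ : ∀ n j, MeasurableSet[ℱ j] (J n (j + 1))) (T : ℕ → ℕ) (lam : ℝ) :
    ∀ᵐ ω ∂μ, ∀ᶠ n : ℕ in atTop,
      lam * Xs A (J n) (T n) ω - (Real.exp lam - 1) * Ds μ ℱ A (J n) (T n) ω ≤ 2 * Real.log (n + 1) := by
  have hsum : ∑' n : ℕ, μ {ω | ((n : ℝ) + 1) ^ 2 ≤ M μ ℱ A (J n) lam (T n) ω} ≠ ⊤ := by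
    have h1 : ∀ n : ℕ, μ {ω | ((n : ℝ) + 1) ^ 2 ≤ M μ ℱ A (J n) lam (T n) ω} ≤
        ENNReal.ofReal (1 / ((n : ℝ) + 1) ^ 2) := by
      intro n
      have h2 := mul_meas_ge_le_integral_of_nonneg (μ := μ)
        (Eventually.of_forall fun ω => M_nonneg (μ := μ) (ℱ := ℱ) (A := A) (J n) lam (T n) ω)
        (M_int hA (J n) (hJ n) lam (T n)) (((n : ℝ) + 1) ^ 2)
      have h3 := h2.trans (M_le_one hA (J n) (hJ n) lam (T n))
      have hp : (0 : ℝ) < ((n : ℝ) + 1) ^ 2 := by positivity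
      have h4 : μ.real {ω | ((n : ℝ) + 1) ^ 2 ≤ M μ ℱ A (J n) lam (T n) ω} ≤ 1 / ((n : ℝ) + 1) ^ 2 := by
        rw [le_div_iff₀ hp, mul_comm]
        exact h3
      rw [← ENNReal.ofReal_toReal (measure_ne_top μ _)]
      exact ENNReal.ofReal_le_ofReal h4
    have h2 : Summable (fun n : ℕ => 1 / ((n : ℝ) + 1) ^ 2) := by
      have := (summable_nat_add_iff 1).2 (Real.summable_one_div_nat_pow.2 (one_lt_two))
      refine this.congr fun n => ?_
      push_cast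
      rfl
    have h3 : ∑' n : ℕ, ENNReal.ofReal (1 / ((n : ℝ) + 1) ^ 2) ≠ ⊤ := h2.tsum_ofReal_ne_top
    exact ne_top_of_le_ne_top h3 (ENNReal.tsum_le_tsum h1)
  have h := ae_eventually_notMem hsum
  filter_upwards [h] with ω hω
  filter_upwards [hω] with n hn
  have hn' : M μ ℱ A (J n) lam (T n) ω < ((n : ℝ) + 1) ^ 2 := by
    by_contra h2
    push Not at h2
    exact hn h2
  rw [M_eq] at hn'
  have hp : (0 : ℝ) < (n : ℝ) + 1 := by positivity
  have h5 := Real.log_lt_log (Real.exp_pos _) hn'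
  rw [Real.log_exp, Real.log_pow] at h5
  push_cast at h5
  exact h5.le

theorem pred_lower (hA : ∀ n, MeasurableSet[ℱ n] (A n)) (J : ℕ → ℕ → Set Ω)
    (hJ : ∀ n j, MeasurableSet[ℱ j] (J n (j + 1))) (T : ℕ → ℕ) :
    ∀ᵐ ω ∂μ, ∀ ε : ℝ, 0 < ε → ∃ C : ℝ, ∀ᶠ n : ℕ in atTop,
      (1 - ε) * Ds μ ℱ A (J n) (T n) ω - C * Real.log (n + 1) ≤ Xs A (J n) (T n) ω := by
  have h1 : ∀ᵐ ω ∂μ, ∀ k : ℕ, ∀ᶠ n : ℕ in atTop,
      (-(1 / ((k : ℝ) + 1))) * Xs A (J n) (T n) ω - (Real.exp (-(1 / ((k : ℝ) + 1))) - 1) *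
        Ds μ ℱ A (J n) (T n) ω ≤ 2 * Real.log (n + 1) := by
    rw [ae_all_iff]
    exact fun k => bc hA J hJ T _
  filter_upwards [h1] with ω hω ε hε
  obtain ⟨k, hk⟩ := exists_nat_one_div_lt hε
  refine ⟨2 * ((k : ℝ) + 1), ?_⟩
  filter_upwards [hω k] with n hn
  set x := Xs A (J n) (T n) ω
  set D := Ds μ ℱ A (J n) (T n) ω with hD
  have hD0 : 0 ≤ D := Finset.sum_nonneg fun j _ => mul_nonneg
    (Set.indicator_nonneg (fun _ _ => zero_le_one) ω) (dc_nonneg j ω)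
  set e : ℝ := 1 / ((k : ℝ) + 1) with he
  have he0 : 0 < e := by positivity
  have h2 : e / (1 + e) ≤ 1 - Real.exp (-e) := by
    have h3 : 1 + e ≤ Real.exp e := by
      have := Real.add_one_le_exp e
      linarith
    have h4 : Real.exp (-e) ≤ 1 / (1 + e) := by
      rw [Real.exp_neg, ← one_div]
      exact one_div_le_one_div_of_le (by linarith) h3
    have h5 : e / (1 + e) = 1 - 1 / (1 + e) := by
      field_simp
      ring
    rw [h5]
    linarith
  have h6 : e * (1 - ε) ≤ 1 - Real.exp (-e) := by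
    refine le_trans ?_ h2
    rw [div_eq_mul_inv]
    apply mul_le_mul_of_nonneg_left _ he0.le
    rw [← one_div, le_div_iff₀ (by linarith)]
    nlinarith
  have h7 : e * ((1 - ε) * D) ≤ (1 - Real.exp (-e)) * D := by
    rw [← mul_assoc]
    exact mul_le_mul_of_nonneg_right h6 hD0
  have h8 : e * ((1 - ε) * D) - 2 * Real.log (n + 1) ≤ e * x := by linarith
  have h9 : e * (2 * ((k : ℝ) + 1) * Real.log (n + 1)) = 2 * Real.log (n + 1) := by
    rw [he]
    field_simp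
  have h10 : e * ((1 - ε) * D - 2 * ((k : ℝ) + 1) * Real.log (n + 1)) ≤ e * x := by
    rw [mul_sub, h9]
    exact h8
  exact le_of_mul_le_mul_left h10 he0

/-- lower bound of the compensator -/
lemma Ds_ge (J : ℕ → Set Ω) (T : ℕ) (ω : Ω) (K : Finset ℕ) (u : ℕ → ℕ)
    (hu : Set.InjOn u K) (hK : ∀ m ∈ K, 1 ≤ u m ∧ u m ≤ T ∧ ω ∈ J (u m)) :
    ∑ m ∈ K, dc μ ℱ A (u m - 1) ω ≤ Ds μ ℱ A J T ω := by
  classical
  have h1 : Set.InjOn (fun m => u m - 1) (K : Set ℕ) := by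
    intro a ha b hb hab
    apply hu ha hb
    have := (hK a ha).1
    have := (hK b hb).1
    simp only at hab
    omega
  calc ∑ m ∈ K, dc μ ℱ A (u m - 1) ω
      = ∑ j ∈ K.image (fun m => u m - 1), dc μ ℱ A j ω := (Finset.sum_image (f := fun j => dc μ ℱ A j ω) h1).symm
    _ = ∑ j ∈ K.image (fun m => u m - 1), (J (j + 1)).indicator (fun _ => (1 : ℝ)) ω * dc μ ℱ A j ω := by
        refine Finset.sum_congr rfl fun j hj => ?_
        obtain ⟨m, hm, rfl⟩ := Finset.mem_image.1 hj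
        have h2 := hK m hm
        rw [Nat.sub_add_cancel h2.1, Set.indicator_of_mem h2.2.2, one_mul]
    _ ≤ Ds μ ℱ A J T ω := by
        refine Finset.sum_le_sum_of_subset_of_nonneg ?_ fun j _ _ => mul_nonneg
          (Set.indicator_nonneg (fun _ _ => zero_le_one) ω) (dc_nonneg j ω)
        intro j hj
        obtain ⟨m, hm, rfl⟩ := Finset.mem_image.1 hj
        have h2 := hK m hm
        rw [Finset.mem_range]
        omega

open Classical in
omit m0 in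
/-- upper bound of the number -/
lemma Xs_le (J : ℕ → Set Ω) (T : ℕ) (ω : Ω) (K : Finset ℕ) (u : ℕ → ℕ)
    (hK : ∀ j < T, ω ∈ J (j + 1) → ω ∈ A (j + 1) → ∃ m ∈ K, u m = j + 1) :
    Xs A J T ω ≤ ((K.filter (fun m => ω ∈ A (u m))).card : ℝ) := by
  have e1 : Xs A J T ω = (((Finset.range T).filter (fun j => ω ∈ J (j + 1) ∧ ω ∈ A (j + 1))).card : ℝ) := by
    unfold Xs
    rw [← Finset.sum_boole]
    refine Finset.sum_congr rfl fun j _ => ?_
    by_cases h : ω ∈ J (j + 1) <;> by_cases h' : ω ∈ A (j + 1) <;> simp [h, h']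
  rw [e1]
  have h2 : ((Finset.range T).filter (fun j => ω ∈ J (j + 1) ∧ ω ∈ A (j + 1))) ⊆
      (K.filter (fun m => ω ∈ A (u m))).image (fun m => u m - 1) := by
    intro j hj
    obtain ⟨h3, h4, h5⟩ := Finset.mem_filter.1 hj
    obtain ⟨m, hm, hum⟩ := hK j (Finset.mem_range.1 h3) h4 h5
    refine Finset.mem_image.2 ⟨m, Finset.mem_filter.2 ⟨hm, by rw [hum]; exact h5⟩, ?_⟩
    omega
  exact_mod_cast (Finset.card_le_card h2).trans Finset.card_image_le

end Pool.Agent.U958.SM
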