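import Mathlib
import Pool.Agent.U958.SM.Law

set_option autoImplicit false

/-! # The families of the problem (helper958) -/

open MeasureTheory Filter Topology

namespace Pool.Agent.U958.SM

variable {Ω : Type} {m0 : MeasurableSpace Ω} {ℱ : Filtration ℕ m0} {A : ℕ → Set Ω}

/-- `j` is positive and chosen -/
def PP (A : ℕ → Set Ω) (ω : Ω) (j : ℕ) : Prop := 1 ≤ j ∧ ω ∈ A j

open Classical in
/-- the number of positive chosen numbers below `q` -/
noncomputable def cn (A : ℕ → Set Ω) (q : ℕ) (ω : Ω) : ℕ := Nat.count (PP A ω) q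

lemma guard {m : MeasurableSpace Ω} (p : Prop) (s : Set Ω) (h : p → MeasurableSet[m] s) :
    MeasurableSet[m] {ω | p ∧ ω ∈ s} := by
  by_cases hp : p
  · have : {ω | p ∧ ω ∈ s} = s := by
      ext ω
      simp [hp]
    rw [this]
    exact h hp
  · have : {ω | p ∧ ω ∈ s} = ∅ := by
      ext ω
      simp [hp]
    rw [this]
    exact MeasurableSet.empty

lemma cn_meas (hA : ∀ n, MeasurableSet[ℱ n] (A n)) (q : ℕ) : Measurable[ℱ q] (cn A q) := by
  classical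
  induction q with
  | zero =>
    have : cn A 0 = fun _ => 0 := by
      funext ω
      simp [cn]
    rw [this]
    exact @measurable_const _ _ _ (ℱ 0) 0
  | succ q ih =>
    have h1 : Measurable[ℱ (q + 1)] (cn A q) := ih.mono (ℱ.mono (Nat.le_succ q)) le_rfl
    have h2 : MeasurableSet[ℱ (q + 1)] {ω | PP A ω q} :=
      guard (1 ≤ q) (A q) (fun _ => ℱ.mono (Nat.le_succ q) _ (hA q))
    have h3 : cn A (q + 1) = fun ω => cn A q ω + (if PP A ω q then 1 else 0) := by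
      funext ω
      unfold cn
      rw [Nat.count_succ]
    rw [h3]
    have h4 : Measurable[ℱ (q + 1)] (fun ω => if PP A ω q then 1 else 0) :=
      Measurable.ite h2 (@measurable_const _ _ _ (ℱ (q + 1)) 1) (@measurable_const _ _ _ (ℱ (q + 1)) 0)
    exact h1.add h4

/-- `q` is the `m`-th positive chosen number -/
def EE (A : ℕ → Set Ω) (m q : ℕ) : Set Ω := {ω | PP A ω q ∧ cn A q ω + 1 = m}

lemma EE_meas (hA : ∀ n, MeasurableSet[ℱ n] (A n)) (m q : ℕ) : MeasurableSet[ℱ q] (EE A m q) := by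
  have h2 : MeasurableSet[ℱ q] {ω | PP A ω q} := guard (1 ≤ q) (A q) (fun _ => hA q)
  have h3 : MeasurableSet[ℱ q] ((cn A q) ⁻¹' {c | c + 1 = m}) := (cn_meas hA q) trivial
  exact h2.inter h3

/-- positions of all -/
def J0 (A : ℕ → Set Ω) (n j : ℕ) : Set Ω :=
  ⋃ (q : ℕ) (m : ℕ), {ω | (3 ≤ q ∧ q ^ 2 - 2 = j ∧ m < n) ∧ ω ∈ EE A m q}

/-- positions for pairs -/
def JA (A : ℕ → Set Ω) (n j : ℕ) : Set Ω :=
  ⋃ (q : ℕ) (q' : ℕ) (m : ℕ), {ω | (3 ≤ q' ∧ q' < q ∧ q ^ 2 - 2 = j ∧ m < n ∧ n < 2 * m) ∧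
    ω ∈ EE A m q ∩ (EE A (n - m) q' ∩ A (q' ^ 2 - 2))}

/-- positions for triples -/
def JB (A : ℕ → Set Ω) (n j : ℕ) : Set Ω :=
  ⋃ (r : ℕ) (q : ℕ) (q' : ℕ) (m : ℕ), {ω | (3 ≤ q' ∧ q' < q ∧ q < r ∧ r ^ 2 - 2 = j ∧ m < n ∧ n < 2 * m) ∧
    ω ∈ EE A q r ∩ ((EE A m q ∩ A (q ^ 2 - 2)) ∩ (EE A (n - m) q' ∩ A (q' ^ 2 - 2)))}

lemma tm1 {q j : ℕ} (h1 : 3 ≤ q) (h2 : q ^ 2 - 2 = j + 1) : q ≤ j := by
  have h3 : 3 * q ≤ q ^ 2 := by nlinarith
  omega

lemma tm2 {q q' j : ℕ} (h1 : 3 ≤ q') (h : q' < q) (h2 : q ^ 2 - 2 = j + 1) : q' ^ 2 - 2 ≤ j := by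
  have h3 : q' ^ 2 < q ^ 2 := by nlinarith
  omega

lemma J0_meas (hA : ∀ n, MeasurableSet[ℱ n] (A n)) (n j : ℕ) : MeasurableSet[ℱ j] (J0 A n (j + 1)) := by
  refine MeasurableSet.iUnion fun q => MeasurableSet.iUnion fun m => guard _ _ fun h => ?_
  exact ℱ.mono (tm1 h.1 h.2.1) _ (EE_meas hA m q)

lemma JA_meas (hA : ∀ n, MeasurableSet[ℱ n] (A n)) (n j : ℕ) : MeasurableSet[ℱ j] (JA A n (j + 1)) := by
  refine MeasurableSet.iUnion fun q => MeasurableSet.iUnion fun q' => MeasurableSet.iUnion fun m =>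
    guard _ _ fun h => ?_
  have h1 : q ≤ j := tm1 (by omega) h.2.2.1
  exact (ℱ.mono h1 _ (EE_meas hA m q)).inter ((ℱ.mono (by omega) _ (EE_meas hA (n - m) q')).inter
    (ℱ.mono (tm2 h.1 h.2.1 h.2.2.1) _ (hA _)))

lemma JB_meas (hA : ∀ n, MeasurableSet[ℱ n] (A n)) (n j : ℕ) : MeasurableSet[ℱ j] (JB A n (j + 1)) := by
  refine MeasurableSet.iUnion fun r => MeasurableSet.iUnion fun q => MeasurableSet.iUnion fun q' =>
    MeasurableSet.iUnion fun m => guard _ _ fun h => ?_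
  have h1 : r ≤ j := tm1 (by omega) h.2.2.2.1
  have h2 : q ^ 2 - 2 ≤ j := tm2 (by omega) h.2.2.1 h.2.2.2.1
  have h3 : q' ^ 2 - 2 ≤ j := tm2 h.1 (by omega) h.2.2.2.1
  exact (ℱ.mono h1 _ (EE_meas hA q r)).inter (((ℱ.mono (by omega) _ (EE_meas hA m q)).inter
    (ℱ.mono h2 _ (hA _))).inter ((ℱ.mono (by omega) _ (EE_meas hA (n - m) q')).inter (ℱ.mono h3 _ (hA _))))

/-- the `m`-th positive chosen number -/
noncomputable def qn (A : ℕ → Set Ω) (ω : Ω) (m : ℕ) : ℕ := Nat.nth (PP A ω) (m - 1)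

section

variable {ω : Ω} (hinf : (setOf (PP A ω)).Infinite)

include hinf

lemma EE_iff (m x : ℕ) : ω ∈ EE A m x ↔ 1 ≤ m ∧ qn A ω m = x := by
  classical
  constructor
  · rintro ⟨h1, h2⟩
    refine ⟨by omega, ?_⟩
    unfold qn
    rw [← h2, Nat.add_sub_cancel]
    exact Nat.nth_count h1
  · rintro ⟨h1, rfl⟩
    refine ⟨Nat.nth_mem_of_infinite hinf _, ?_⟩
    unfold cn qn
    rw [Nat.count_nth_of_infinite hinf]
    omega

lemma qn_mem (m : ℕ) : PP A ω (qn A ω m) := Nat.nth_mem_of_infinite hinf _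

lemma qn_lt {a b : ℕ} (ha : 1 ≤ a) (hab : a < b) : qn A ω a < qn A ω b :=
  Nat.nth_strictMono hinf (by omega)

lemma le_qn (m : ℕ) : m ≤ qn A ω m := by
  have h : ∀ k, k + 1 ≤ Nat.nth (PP A ω) k := by
    intro k
    induction k with
    | zero => exact (Nat.nth_mem_of_infinite hinf 0).1
    | succ k ih =>
      have := Nat.nth_strictMono hinf (Nat.lt_add_one k)
      omega
  unfold qn
  have := h (m - 1)
  omega

lemma qn_le {a b : ℕ} (hab : a ≤ b) : qn A ω a ≤ qn A ω b :=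
  (Nat.nth_strictMono hinf).monotone (by omega)

end

end Pool.Agent.U958.SM
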