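import Mathlib
import Pool.Agent.U958.SM.Law
import Pool.Agent.U958.PF.Law

set_option autoImplicit false

/-! # One step of the exposure (helper958) -/

open MeasureTheory Filter Topology

namespace Pool.Agent.U958.SM

open Pool.Agent.R528.RM Pool.Agent.U958.PF

variable {Ω : Type} {m0 : MeasurableSpace Ω} {μ : Measure Ω} [IsProbabilityMeasure μ]
  {ℱ : Filtration ℕ m0} {A : ℕ → Set Ω}

omit [IsProbabilityMeasure μ] in
lemma sum_lower {ω : Ω} (Q : Finset ℕ) {W e : ℝ} (hW : 0 < W) (he1 : e < 1) {j1 : ℕ}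
    (hdc : ∀ j : ℕ, j1 ≤ j → Free Q (j + 1) → (1 - e) * (W / Real.log ((j + 1 : ℕ) : ℝ)) ≤ dc μ ℱ A j ω)
    (K : Finset ℕ) (u : ℕ → ℕ) (hK : ∀ m ∈ K, m ≤ u m ∧ Free Q (u m)) (L : ℝ) (hL : 0 < L)
    (hlog : ∀ m ∈ K, Real.log (u m) ≤ L) :
    ((K.card : ℝ) - (j1 + 2)) * ((1 - e) * (W / L)) ≤ ∑ m ∈ K, dc μ ℱ A (u m - 1) ω := by
  classical
  have hc : 0 ≤ (1 - e) * (W / L) := mul_nonneg (by linarith) (by positivity)
  have h1 : ((K.filter (fun m => j1 + 2 ≤ m)).card : ℝ) * ((1 - e) * (W / L)) ≤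
      ∑ m ∈ K.filter (fun m => j1 + 2 ≤ m), dc μ ℱ A (u m - 1) ω := by
    rw [← nsmul_eq_mul]
    refine Finset.card_nsmul_le_sum _ _ _ fun m hm => ?_
    obtain ⟨hm1, hm2⟩ := Finset.mem_filter.1 hm
    obtain ⟨h2, h3⟩ := hK m hm1
    have h4 := hdc (u m - 1) (by omega) (by rw [Nat.sub_add_cancel (by omega)]; exact h3)
    rw [Nat.sub_add_cancel (by omega)] at h4
    refine le_trans ?_ h4
    have h5 : (1 : ℝ) < u m := by exact_mod_cast (by omega : 1 < u m)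
    have h6 : 0 < Real.log (u m) := Real.log_pos h5
    have h7 := hlog m hm1
    have h8 : 0 ≤ 1 - e := by linarith
    gcongr
  have h2 : ∑ m ∈ K.filter (fun m => j1 + 2 ≤ m), dc μ ℱ A (u m - 1) ω ≤ ∑ m ∈ K, dc μ ℱ A (u m - 1) ω :=
    Finset.sum_le_sum_of_subset_of_nonneg (Finset.filter_subset _ _) fun _ _ _ => dc_nonneg _ _
  have h3 : (K.card : ℝ) - (j1 + 2) ≤ ((K.filter (fun m => j1 + 2 ≤ m)).card : ℝ) := by
    have h4 := Finset.card_filter_add_card_filter_not (s := K) (fun m => j1 + 2 ≤ m)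
    have h5 : (K.filter (fun m => ¬ j1 + 2 ≤ m)).card ≤ j1 + 2 := by
      have h6 : K.filter (fun m => ¬ j1 + 2 ≤ m) ⊆ Finset.range (j1 + 2) := fun m hm => by
        have := (Finset.mem_filter.1 hm).2
        rw [Finset.mem_range]
        omega
      have := Finset.card_le_card h6
      rwa [Finset.card_range] at this
    have h7 : K.card ≤ (K.filter (fun m => j1 + 2 ≤ m)).card + (j1 + 2) := by omega
    have h8 : (K.card : ℝ) ≤ ((K.filter (fun m => j1 + 2 ≤ m)).card : ℝ) + (j1 + 2) := by exact_mod_cast h7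
    linarith
  calc ((K.card : ℝ) - (j1 + 2)) * ((1 - e) * (W / L))
      ≤ ((K.filter (fun m => j1 + 2 ≤ m)).card : ℝ) * ((1 - e) * (W / L)) := mul_le_mul_of_nonneg_right h3 hc
    _ ≤ _ := h1.trans h2

open Classical in
lemma step {ω : Ω} (Q : Finset ℕ) {W : ℝ} (hW : 0 < W)
    (hdc : ∀ ε : ℝ, 0 < ε → ∀ᶠ j : ℕ in atTop, Free Q (j + 1) →
      (1 - ε) * (W / Real.log ((j + 1 : ℕ) : ℝ)) ≤ dc μ ℱ A j ω)
    (J : ℕ → ℕ → Set Ω) (T : ℕ → ℕ)
    (hpl : ∀ ε : ℝ, 0 < ε → ∃ C : ℝ, ∀ᶠ n : ℕ in atTop,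
      (1 - ε) * Ds μ ℱ A (J n) (T n) ω - C * Real.log (n + 1) ≤ Xs A (J n) (T n) ω)
    (K : ℕ → Finset ℕ) (u : ℕ → ℕ) (hinj : ∀ n, Set.InjOn u (K n))
    (hK : ∀ n, ∀ m ∈ K n, 1 ≤ m ∧ m ≤ u m ∧ Free Q (u m) ∧ ω ∈ J n (u m))
    (hT : ∀ᶠ n in atTop, ∀ m ∈ K n, u m ≤ T n)
    (hlog : ∀ ε : ℝ, 0 < ε → ∀ᶠ n : ℕ in atTop, ∀ m ∈ K n, Real.log (u m) ≤ 2 * (1 + ε) * Real.log n)
    (hX : ∀ n, ∀ j < T n, ω ∈ J n (j + 1) → ω ∈ A (j + 1) → ∃ m ∈ K n, u m = j + 1) :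
    ∀ ε : ℝ, 0 < ε → ∃ C : ℝ, ∀ᶠ n : ℕ in atTop,
      (1 - ε) * (W / (2 * Real.log n)) * (K n).card - C * Real.log (n + 1) ≤
        (((K n).filter (fun m => ω ∈ A (u m))).card : ℝ) := by
  intro ε hε
  set e : ℝ := min ε 1 / 4 with he
  have he0 : 0 < e := by
    have : 0 < min ε 1 := lt_min hε one_pos
    positivity
  have he1 : e ≤ 1 / 4 := by
    have : min ε 1 ≤ 1 := min_le_right _ _
    linarith
  have he2 : 4 * e ≤ ε := by
    have : min ε 1 ≤ ε := min_le_left _ _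
    linarith
  obtain ⟨C, hC⟩ := hpl e he0
  obtain ⟨j1, hj1⟩ := eventually_atTop.1 (hdc e he0)
  refine ⟨C + (j1 + 2) * W, ?_⟩
  have hlogn : Tendsto (fun n : ℕ => Real.log n) atTop atTop := logN
  filter_upwards [hC, hT, hlog e he0, hlogn.eventually_ge_atTop 1, eventually_gt_atTop 0] with n h1 h2 h3 h4 hn0
  have hln : 0 < Real.log n := by linarith
  have hlog1 : Real.log n ≤ Real.log ((n : ℝ) + 1) := Real.log_le_log (by exact_mod_cast hn0) (by linarith)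
  have hL : 0 < 2 * (1 + e) * Real.log n := by positivity
  have h5 := sum_lower (μ := μ) (ℱ := ℱ) (A := A) (ω := ω) Q hW (by linarith : e < 1) hj1 (K n) u
    (fun m hm => ⟨(hK n m hm).2.1, (hK n m hm).2.2.1⟩) _ hL h3
  have h6 := Ds_ge (μ := μ) (ℱ := ℱ) (A := A) (J n) (T n) ω (K n) u (hinj n)
    (fun m hm => ⟨(hK n m hm).1.trans (hK n m hm).2.1, h2 m hm, (hK n m hm).2.2.2⟩)
  have h7 := Xs_le (A := A) (J n) (T n) ω (K n) u (hX n)
  set c : ℝ := (1 - e) * (W / (2 * (1 + e) * Real.log n)) with hc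
  have hc0 : 0 ≤ c := mul_nonneg (by linarith) (by positivity)
  have h8 : (1 - e) * (((K n).card : ℝ) - (j1 + 2)) * c ≤ (1 - e) * Ds μ ℱ A (J n) (T n) ω := by
    rw [mul_assoc]
    exact mul_le_mul_of_nonneg_left (h5.trans h6) (by linarith)
  have h9 : (1 - ε) * (W / (2 * Real.log n)) ≤ (1 - e) * c := by
    have h10 : (1 - ε) * (1 + e) ≤ (1 - e) ^ 2 := by nlinarith
    have h11 : (1 - e) * c = (1 - e) ^ 2 / (1 + e) * (W / (2 * Real.log n)) := by
      rw [hc]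
      field_simp
    rw [h11]
    apply mul_le_mul_of_nonneg_right _ (by positivity)
    rw [le_div_iff₀ (by linarith)]
    exact h10
  have h12 : (1 - e) * c ≤ W := by
    have h13 : c ≤ W := by
      rw [hc]
      have h14 : W / (2 * (1 + e) * Real.log n) ≤ W := by
        apply div_le_self hW.le
        nlinarith
      calc (1 - e) * (W / (2 * (1 + e) * Real.log n)) ≤ 1 * (W / (2 * (1 + e) * Real.log n)) := by
            apply mul_le_mul_of_nonneg_right (by linarith) (by positivity)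
        _ ≤ W := by rw [one_mul]; exact h14
    nlinarith
  have hcard : (0 : ℝ) ≤ (K n).card := Nat.cast_nonneg _
  have h15 : (1 - ε) * (W / (2 * Real.log n)) * (K n).card ≤ (1 - e) * c * (K n).card :=
    mul_le_mul_of_nonneg_right h9 hcard
  have h16 : (1 - e) * c * (j1 + 2) ≤ (j1 + 2) * W * Real.log (n + 1) := by
    have hj0 : (0 : ℝ) ≤ (j1 : ℝ) + 2 := by positivity
    calc (1 - e) * c * (j1 + 2) ≤ W * (j1 + 2) := mul_le_mul_of_nonneg_right h12 hj0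
      _ = (j1 + 2) * W * 1 := by ring
      _ ≤ (j1 + 2) * W * Real.log (n + 1) := by
          apply mul_le_mul_of_nonneg_left _ (by positivity)
          linarith
  nlinarith

end Pool.Agent.U958.SM
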