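import Mathlib
import Pool.Agent.U958.SM.Step
import Pool.Agent.U958.SM.Idx

set_option autoImplicit false

/-! # Growth of the m-th chosen number (helper958) -/

open MeasureTheory Filter Topology

namespace Pool.Agent.U958.SM

open Pool.Agent.R528.RM Pool.Agent.U958.PF

variable {Ω : Type} {m0 : MeasurableSpace Ω} {μ : Measure Ω} [IsProbabilityMeasure μ]
  {ℱ : Filtration ℕ m0} {A : ℕ → Set Ω}

omit m0 in
lemma Xs_univ (n : ℕ) (ω : Ω) : Xs A (fun _ => Set.univ) n ω = cn A (n + 1) ω := by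
  classical
  induction n with
  | zero =>
    unfold Xs cn
    rw [Nat.count_succ]
    simp [PP]
  | succ n ih =>
    unfold Xs cn at ih ⊢
    rw [Finset.sum_range_succ, ih, Nat.count_succ (n := n + 1)]
    simp only [Set.indicator_univ, one_mul]
    by_cases h : ω ∈ A (n + 1)
    · have h2 : PP A ω (n + 1) := ⟨by omega, h⟩
      rw [Set.indicator_of_mem h, if_pos h2]
      push_cast
      ring
    · have h2 : ¬ PP A ω (n + 1) := fun h3 => h h3.2
      rw [Set.indicator_of_notMem h, if_neg h2]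
      push_cast
      ring

lemma logsq_div : Tendsto (fun n : ℕ => Real.log n ^ 2 / (n : ℝ)) atTop (𝓝 0) :=
  ((Real.isLittleO_pow_log_id_atTop (n := 2)).tendsto_div_nhds_zero).comp tendsto_natCast_atTop_atTop

lemma log_rpow_div (a : ℝ) (ha : a < 1) : Tendsto (fun n : ℕ => (n : ℝ) ^ a * Real.log n / (n : ℝ)) atTop (𝓝 0) := by
  have h := ((isLittleO_log_rpow_atTop (show (0 : ℝ) < 1 - a by linarith)).tendsto_div_nhds_zero).comp
    (tendsto_natCast_atTop_atTop (R := ℝ))
  refine h.congr' ?_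
  filter_upwards [eventually_gt_atTop 0] with n hn
  have hn' : (0 : ℝ) < n := by exact_mod_cast hn
  simp only [Function.comp]
  rw [Real.rpow_sub hn', Real.rpow_one]
  have : (0 : ℝ) < (n : ℝ) ^ a := Real.rpow_pos_of_pos hn' a
  field_simp

lemma grow {ω : Ω} (Q : Finset ℕ) (hQ : ∀ p ∈ Q, p.Prime) {W : ℝ} (hW : 0 < W)
    (hdc : ∀ ε : ℝ, 0 < ε → ∀ᶠ j : ℕ in atTop, Free Q (j + 1) →
      (1 - ε) * (W / Real.log ((j + 1 : ℕ) : ℝ)) ≤ dc μ ℱ A j ω)
    (hpl : ∀ ε : ℝ, 0 < ε → ∃ C : ℝ, ∀ᶠ n : ℕ in atTop,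
      (1 - ε) * Ds μ ℱ A (fun _ => Set.univ) n ω - C * Real.log (n + 1) ≤ Xs A (fun _ => Set.univ) n ω)
    (a : ℝ) (ha : a < 1) : ∀ᶠ n : ℕ in atTop, (n : ℝ) ^ a ≤ cn A (n + 1) ω := by
  set P : ℕ := ∏ p ∈ Q, p with hP
  have hP0 : 0 < P := Finset.prod_pos fun p hp => (hQ p hp).pos
  have hPr : (0 : ℝ) < P := by exact_mod_cast hP0
  obtain ⟨C, hC⟩ := hpl (1 / 2) (by norm_num)
  obtain ⟨j1, hj1⟩ := eventually_atTop.1 (hdc (1 / 2) (by norm_num))
  have hfree : ∀ m, Free Q (1 + P * m) := by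
    intro m p hp hd
    have h1 : p ∣ P * m := (Finset.dvd_prod_of_mem _ hp).mul_right m
    have h2 : p ∣ 1 := (Nat.dvd_add_left h1).1 hd
    exact (hQ p hp).one_lt.ne' (Nat.dvd_one.1 h2)
  have hlogn : Tendsto (fun n : ℕ => Real.log n) atTop atTop := logN
  -- the lower bound
  have hlow : ∀ᶠ n : ℕ in atTop, W / 4 * ((n : ℝ) / P - (j1 + 4)) / Real.log n - 2 * |C| * Real.log n ≤
      cn A (n + 1) ω := by
    filter_upwards [hC, hlogn.eventually_ge_atTop 1, eventually_ge_atTop 2] with n h1 h2 h3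
    have hln : 0 < Real.log n := by linarith
    have hn2 : (2 : ℝ) ≤ n := by exact_mod_cast h3
    set K : Finset ℕ := Finset.Icc 1 ((n - 1) / P) with hK
    have hKu : ∀ m ∈ K, 1 + P * m ≤ n := by
      intro m hm
      have h4 := (Finset.mem_Icc.1 hm).2
      have h5 : P * m ≤ n - 1 := by
        calc P * m ≤ P * ((n - 1) / P) := Nat.mul_le_mul_left _ h4
          _ ≤ n - 1 := Nat.mul_div_le _ _
      omega
    have h4 := sum_lower (μ := μ) (ℱ := ℱ) (A := A) (ω := ω) Q hW (by norm_num : (1 / 2 : ℝ) < 1) hj1 K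
      (fun m => 1 + P * m) (fun m _ => ⟨by nlinarith, hfree m⟩) (Real.log n) hln (fun m hm => by
        apply Real.log_le_log
        · positivity
        · exact_mod_cast hKu m hm)
    have h5 := Ds_ge (μ := μ) (ℱ := ℱ) (A := A) (fun _ => Set.univ) n ω K (fun m => 1 + P * m)
      (fun x _ y _ hxy => by
        simp only at hxy
        have : P * x = P * y := by omega
        exact Nat.eq_of_mul_eq_mul_left hP0 this) (fun m hm => ⟨by omega, hKu m hm, trivial⟩)
    have hcard : (n : ℝ) / P - 2 ≤ (K.card : ℝ) := by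
      rw [hK, Nat.card_Icc, Nat.add_sub_cancel]
      have h6 : n - 1 < P * ((n - 1) / P + 1) := Nat.lt_mul_div_succ _ hP0
      have h7 : ((n : ℝ) - 1) < P * ((((n - 1) / P : ℕ) : ℝ) + 1) := by
        have h8 : ((n - 1 : ℕ) : ℝ) < ((P * ((n - 1) / P + 1) : ℕ) : ℝ) := by exact_mod_cast h6
        rw [Nat.cast_sub (by omega)] at h8
        push_cast at h8
        exact h8
      have h9 : (n : ℝ) < P * ((((n - 1) / P : ℕ) : ℝ) + 2) := by
        have : (1 : ℝ) ≤ P := by exact_mod_cast hP0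
        linarith
      have h10 : (n : ℝ) / P < (((n - 1) / P : ℕ) : ℝ) + 2 := by
        rw [div_lt_iff₀ hPr, mul_comm]
        exact h9
      linarith
    rw [Xs_univ] at h1
    have h6 : ((n : ℝ) / P - (j1 + 4)) * ((1 - 1 / 2) * (W / Real.log n)) ≤
        ((K.card : ℝ) - (j1 + 2)) * ((1 - 1 / 2) * (W / Real.log n)) := by
      apply mul_le_mul_of_nonneg_right _ (by positivity)
      linarith
    have h7 : Real.log ((n : ℝ) + 1) ≤ 2 * Real.log n := by
      have h8 : Real.log ((n : ℝ) + 1) ≤ Real.log ((n : ℝ) ^ 2) := by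
        apply Real.log_le_log (by linarith)
        nlinarith
      rw [Real.log_pow] at h8
      push_cast at h8
      exact h8
    have h8 : C * Real.log ((n : ℝ) + 1) ≤ 2 * |C| * Real.log n := by
      have h9 : 0 ≤ Real.log ((n : ℝ) + 1) := Real.log_nonneg (by linarith)
      calc C * Real.log ((n : ℝ) + 1) ≤ |C| * Real.log ((n : ℝ) + 1) :=
            mul_le_mul_of_nonneg_right (le_abs_self C) h9
        _ ≤ |C| * (2 * Real.log n) := mul_le_mul_of_nonneg_left h7 (abs_nonneg C)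
        _ = _ := by ring
    have h9 : W / 4 * ((n : ℝ) / P - (j1 + 4)) / Real.log n =
        (1 - 1 / 2) * (((n : ℝ) / P - (j1 + 4)) * ((1 - 1 / 2) * (W / Real.log n))) := by
      field_simp
      ring
    rw [h9]
    have h10 : (1 - 1 / 2 : ℝ) * (((n : ℝ) / P - (j1 + 4)) * ((1 - 1 / 2) * (W / Real.log n))) ≤
        (1 - 1 / 2) * Ds μ ℱ A (fun _ => Set.univ) n ω := by
      apply mul_le_mul_of_nonneg_left _ (by norm_num)
      exact h6.trans (h4.trans h5)
    linarith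
  -- asymptotics
  have hlim : Tendsto (fun n : ℕ => W / 4 * (1 / P - (j1 + 4) / (n : ℝ)) - 2 * |C| * (Real.log n ^ 2 / (n : ℝ)) -
      (n : ℝ) ^ a * Real.log n / (n : ℝ)) atTop (𝓝 (W / 4 * (1 / P - 0) - 2 * |C| * 0 - 0)) := by
    refine ((Tendsto.const_mul _ (Tendsto.const_sub _ ?_)).sub (logsq_div.const_mul _)).sub (log_rpow_div a ha)
    exact (tendsto_natCast_atTop_atTop (R := ℝ)).const_div_atTop _
  have hpos : 0 < W / 4 * (1 / P - 0) - 2 * |C| * 0 - 0 := by
    simp only [sub_zero, mul_zero]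
    positivity
  filter_upwards [hlow, hlim.eventually (lt_mem_nhds hpos), hlogn.eventually_ge_atTop 1, eventually_gt_atTop 0]
    with n h1 h2 h3 h4
  refine le_trans ?_ h1
  have hn' : (0 : ℝ) < n := by exact_mod_cast h4
  have hln : 0 < Real.log n := by linarith
  have h5 : 0 < (W / 4 * (1 / P - (j1 + 4) / (n : ℝ)) - 2 * |C| * (Real.log n ^ 2 / (n : ℝ)) -
      (n : ℝ) ^ a * Real.log n / (n : ℝ)) * (n / Real.log n) := mul_pos h2 (by positivity)
  have h6 : (W / 4 * (1 / P - (j1 + 4) / (n : ℝ)) - 2 * |C| * (Real.log n ^ 2 / (n : ℝ)) -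
      (n : ℝ) ^ a * Real.log n / (n : ℝ)) * (n / Real.log n) =
      W / 4 * ((n : ℝ) / P - (j1 + 4)) / Real.log n - 2 * |C| * Real.log n - (n : ℝ) ^ a := by
    field_simp
  rw [h6] at h5
  linarith

omit [IsProbabilityMeasure μ] in
lemma inf_of_grow {ω : Ω} (h : ∀ᶠ n : ℕ in atTop, (n : ℝ) ^ (1 / 2 : ℝ) ≤ cn A (n + 1) ω) :
    (setOf (PP A ω)).Infinite := by
  classical
  intro hfin
  have h1 : ∀ q, cn A q ω ≤ hfin.toFinset.card := by
    intro q
    unfold cn
    rw [Nat.count_eq_card_filter_range]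
    apply Finset.card_le_card
    intro x hx
    rw [Set.Finite.mem_toFinset]
    exact (Finset.mem_filter.1 hx).2
  have h2 : Tendsto (fun n : ℕ => (n : ℝ) ^ (1 / 2 : ℝ)) atTop atTop :=
    (tendsto_rpow_atTop (by norm_num)).comp tendsto_natCast_atTop_atTop
  obtain ⟨n, hn1, hn2⟩ := (h.and (h2.eventually_gt_atTop (hfin.toFinset.card : ℝ))).exists
  have h3 : (cn A (n + 1) ω : ℝ) ≤ hfin.toFinset.card := by exact_mod_cast h1 (n + 1)
  linarith

omit [IsProbabilityMeasure μ] in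
lemma qn_log {ω : Ω} (hinf : (setOf (PP A ω)).Infinite)
    (hg : ∀ a : ℝ, a < 1 → ∀ᶠ n : ℕ in atTop, (n : ℝ) ^ a ≤ cn A (n + 1) ω) (ε : ℝ) (hε : 0 < ε) :
    ∀ᶠ m : ℕ in atTop, Real.log (qn A ω m) ≤ (1 + ε) * Real.log m := by
  classical
  set d : ℝ := ε / 2 with hd
  have hd0 : 0 < d := by positivity
  have ha : 1 / (1 + d) < 1 := by
    rw [div_lt_one (by linarith)]
    linarith
  obtain ⟨n0, hn0⟩ := eventually_atTop.1 (hg _ ha)
  have hlogn : Tendsto (fun n : ℕ => Real.log n) atTop atTop := logN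
  filter_upwards [eventually_ge_atTop (n0 + 3), hlogn.eventually_ge_atTop (Real.log 2 / d)] with m hm hm2
  have h1 := le_qn hinf m
  set q := qn A ω m with hq
  have h2 := hn0 (q - 1) (by omega)
  rw [Nat.sub_add_cancel (by omega)] at h2
  have h3 : cn A q ω = m - 1 := by
    unfold cn
    rw [hq]
    unfold qn
    exact Nat.count_nth_of_infinite hinf _
  rw [h3] at h2
  have hq1 : (1 : ℝ) < ((q - 1 : ℕ) : ℝ) := by exact_mod_cast (by omega : 1 < q - 1)
  have hm1 : (0 : ℝ) < m := by exact_mod_cast (by omega : 0 < m)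
  have h4 : ((q - 1 : ℕ) : ℝ) ^ (1 / (1 + d)) ≤ m := h2.trans (by exact_mod_cast Nat.sub_le m 1)
  have h5 : 1 / (1 + d) * Real.log ((q - 1 : ℕ) : ℝ) ≤ Real.log m := by
    rw [← Real.log_rpow (by linarith)]
    exact Real.log_le_log (Real.rpow_pos_of_pos (by linarith) _) h4
  have h6 : Real.log ((q - 1 : ℕ) : ℝ) ≤ (1 + d) * Real.log m := by
    have : 0 < 1 + d := by linarith
    rw [one_div, inv_mul_le_iff₀ this] at h5
    exact h5
  have h7 : Real.log (q : ℝ) ≤ Real.log 2 + Real.log ((q - 1 : ℕ) : ℝ) := by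
    rw [← Real.log_mul (by norm_num) (by linarith)]
    apply Real.log_le_log
    · exact_mod_cast (by omega : 0 < q)
    · have : q ≤ 2 * (q - 1) := by omega
      exact_mod_cast this
  have h8 : Real.log 2 ≤ d * Real.log m := by
    rw [div_le_iff₀ hd0] at hm2
    linarith
  have : ε = 2 * d := by rw [hd]; ring
  rw [this]
  linarith

end Pool.Agent.U958.SM
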