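import Mathlib
import Pool.Agent.U958.SM.Grow

set_option autoImplicit false

/-! # Three steps (helper958) -/

open MeasureTheory Filter Topology

namespace Pool.Agent.U958.SM

open Pool.Agent.R528.RM Pool.Agent.U958.PF

variable {Ω : Type} {m0 : MeasurableSpace Ω} {μ : Measure Ω} [IsProbabilityMeasure μ]
  {ℱ : Filtration ℕ m0} {A : ℕ → Set Ω}

/-- the position of `m` -/
noncomputable def u0 (A : ℕ → Set Ω) (ω : Ω) (m : ℕ) : ℕ := qn A ω m ^ 2 - 2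
/-- the position of `p_m` -/
noncomputable def uB (A : ℕ → Set Ω) (ω : Ω) (m : ℕ) : ℕ := qn A ω (qn A ω m) ^ 2 - 2

/-- `p_m ^ 2 - 2` is chosen -/
def Bp (A : ℕ → Set Ω) (ω : Ω) (m : ℕ) : Prop := 1 ≤ m ∧ 3 ≤ qn A ω m ∧ ω ∈ A (u0 A ω m)

open Classical in
noncomputable def K0 (A : ℕ → Set Ω) (ω : Ω) (n : ℕ) : Finset ℕ :=
  (Finset.range n).filter (fun m => 1 ≤ m ∧ 3 ≤ qn A ω m)
open Classical in
noncomputable def KA (A : ℕ → Set Ω) (ω : Ω) (n : ℕ) : Finset ℕ :=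
  (Finset.range n).filter (fun m => n < 2 * m ∧ Bp A ω (n - m))
open Classical in
noncomputable def KB (A : ℕ → Set Ω) (ω : Ω) (n : ℕ) : Finset ℕ :=
  (KA A ω n).filter (fun m => ω ∈ A (u0 A ω m) ∧ m < qn A ω m)

section

variable {ω : Ω} (hinf : (setOf (PP A ω)).Infinite)

include hinf

lemma u0_inj {a b : ℕ} (ha : 1 ≤ a) (hb : 1 ≤ b) (ha3 : 3 ≤ qn A ω a) (hb3 : 3 ≤ qn A ω b)
    (h : u0 A ω a = u0 A ω b) : a = b := by
  unfold u0 at h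
  have h1 : qn A ω a ^ 2 = qn A ω b ^ 2 := by
    have : 3 ^ 2 ≤ qn A ω a ^ 2 := Nat.pow_le_pow_left ha3 2
    have : 3 ^ 2 ≤ qn A ω b ^ 2 := Nat.pow_le_pow_left hb3 2
    omega
  have h2 : qn A ω a = qn A ω b := Nat.pow_left_injective (n := 2) (by norm_num) h1
  rcases lt_trichotomy a b with h3 | h3 | h3
  · exact absurd h2 (qn_lt hinf ha h3).ne
  · exact h3
  · exact absurd h2 (qn_lt hinf hb h3).ne'

lemma KA_prop {n m : ℕ} (h : m ∈ KA A ω n) : m < n ∧ n < 2 * m ∧ 1 ≤ n - m ∧ 1 ≤ m ∧ 3 ≤ qn A ω m ∧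
    Bp A ω (n - m) ∧ qn A ω (n - m) < qn A ω m := by
  classical
  obtain ⟨h1, h2, h3⟩ := Finset.mem_filter.1 h
  have h4 := Finset.mem_range.1 h1
  have h5 := h3.1
  have h6 := qn_lt hinf h5 (show n - m < m by omega)
  have h7 := h3.2.1
  exact ⟨h4, h2, h5, by omega, by omega, h3, h6⟩

omit hinf in
lemma uB_eq (m : ℕ) : uB A ω m = u0 A ω (qn A ω m) := rfl

lemma qn3 {m : ℕ} (h : 3 ≤ qn A ω m) : 3 ≤ qn A ω (qn A ω m) := h.trans (le_qn hinf _)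

lemma uB_inj {a b : ℕ} (ha : 1 ≤ a) (hb : 1 ≤ b) (ha3 : 3 ≤ qn A ω a) (hb3 : 3 ≤ qn A ω b)
    (h : uB A ω a = uB A ω b) : a = b := by
  have h2 := u0_inj hinf (by omega) (by omega) (qn3 hinf ha3) (qn3 hinf hb3) h
  rcases lt_trichotomy a b with h3 | h3 | h3
  · exact absurd h2 (qn_lt hinf ha h3).ne
  · exact h3
  · exact absurd h2 (qn_lt hinf hb h3).ne'

omit hinf in
lemma le_u0 {m : ℕ} (h3 : 3 ≤ qn A ω m) : qn A ω m ≤ u0 A ω m := by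
  unfold u0
  have : 3 * qn A ω m ≤ qn A ω m ^ 2 := by nlinarith
  omega

/-- logarithms -/
lemma log_u0 {m n : ℕ} (hmn : m ≤ n) (h3 : 3 ≤ qn A ω m) : Real.log (u0 A ω m) ≤ 2 * Real.log (qn A ω n) := by
  have h1 := qn_le (ω := ω) hinf hmn
  have h2 : u0 A ω m ≤ qn A ω n ^ 2 := by
    unfold u0
    have : qn A ω m ^ 2 ≤ qn A ω n ^ 2 := Nat.pow_le_pow_left h1 2
    omega
  have h4 : 0 < u0 A ω m := by
    have := le_u0 h3
    omega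
  have h5 : Real.log (u0 A ω m) ≤ Real.log ((qn A ω n : ℝ) ^ 2) :=
    Real.log_le_log (by exact_mod_cast h4) (by exact_mod_cast h2)
  rwa [Real.log_pow] at h5

end

/-- the almost sure properties which are used -/
structure Nice (μ : Measure Ω) (ℱ : Filtration ℕ m0) (A : ℕ → Set Ω) (Q : Finset ℕ) (W : ℝ) (ω : Ω) : Prop where
  inf : (setOf (PP A ω)).Infinite
  dc : ∀ ε : ℝ, 0 < ε → ∀ᶠ j : ℕ in atTop, Free Q (j + 1) →
      (1 - ε) * (W / Real.log ((j + 1 : ℕ) : ℝ)) ≤ dc μ ℱ A j ω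
  logq : ∀ ε : ℝ, 0 < ε → ∀ᶠ m : ℕ in atTop, Real.log (qn A ω m) ≤ (1 + ε) * Real.log m
  gap : ∀ᶠ m : ℕ in atTop, m < qn A ω m
  free : ∀ m, 3 ≤ qn A ω m → Free Q (u0 A ω m)
  l0 : ∀ ε : ℝ, 0 < ε → ∃ C : ℝ, ∀ᶠ n : ℕ in atTop,
      (1 - ε) * Ds μ ℱ A (J0 A n) (n ^ 9) ω - C * Real.log (n + 1) ≤ Xs A (J0 A n) (n ^ 9) ω
  lA : ∀ ε : ℝ, 0 < ε → ∃ C : ℝ, ∀ᶠ n : ℕ in atTop,
      (1 - ε) * Ds μ ℱ A (JA A n) (n ^ 9) ω - C * Real.log (n + 1) ≤ Xs A (JA A n) (n ^ 9) ω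
  lB : ∀ ε : ℝ, 0 < ε → ∃ C : ℝ, ∀ᶠ n : ℕ in atTop,
      (1 - ε) * Ds μ ℱ A (JB A n) (n ^ 9) ω - C * Real.log (n + 1) ≤ Xs A (JB A n) (n ^ 9) ω

section

variable {Q : Finset ℕ} {W : ℝ} {ω : Ω}

lemma logqn (h : Nice μ ℱ A Q W ω) (ε : ℝ) (hε : 0 < ε) :
    ∀ᶠ n : ℕ in atTop, 2 * Real.log (qn A ω n) ≤ 2 * (1 + ε) * Real.log n ∧
      2 * Real.log (qn A ω (qn A ω n)) ≤ 2 * (1 + ε) * Real.log n := by
  set d : ℝ := min ε 1 / 3 with hd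
  have hd0 : 0 < d := by
    have : 0 < min ε 1 := lt_min hε one_pos
    positivity
  have hd1 : d ≤ 1 / 3 := by
    have : min ε 1 ≤ 1 := min_le_right _ _
    linarith
  have hd2 : 3 * d ≤ ε := by
    have : min ε 1 ≤ ε := min_le_left _ _
    linarith
  have ht : Tendsto (fun n => qn A ω n) atTop atTop := tendsto_atTop_mono (le_qn h.inf) tendsto_id
  filter_upwards [h.logq d hd0, ht.eventually (h.logq d hd0), logN.eventually_ge_atTop 0] with n h1 h2 h3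
  have h4 : Real.log (qn A ω (qn A ω n)) ≤ (1 + d) * ((1 + d) * Real.log n) :=
    h2.trans (mul_le_mul_of_nonneg_left h1 (by linarith))
  have h5 : (1 + d) * ((1 + d) * Real.log n) ≤ (1 + ε) * Real.log n := by
    rw [← mul_assoc]
    apply mul_le_mul_of_nonneg_right _ h3
    nlinarith
  have h6 : (1 + d) * Real.log n ≤ (1 + ε) * Real.log n := by
    apply mul_le_mul_of_nonneg_right _ h3
    linarith
  constructor <;> linarith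

/-- positions are at most `n ^ 9` -/
lemma posT (h : Nice μ ℱ A Q W ω) : ∀ᶠ n : ℕ in atTop, ∀ m, m ≤ n → 3 ≤ qn A ω m →
    u0 A ω m ≤ n ^ 9 ∧ uB A ω m ≤ n ^ 9 := by
  filter_upwards [logqn h 1 one_pos, eventually_gt_atTop 0] with n h1 h2 m hm h3
  have hn : (0 : ℝ) < n := by exact_mod_cast h2
  have hln : 0 ≤ Real.log n := Real.log_natCast_nonneg n
  have key : ∀ u : ℕ, 0 < u → Real.log u ≤ 2 * (1 + 1) * Real.log n → u ≤ n ^ 9 := by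
    intro u hu hlu
    have h4 : Real.log u ≤ Real.log ((n : ℝ) ^ 9) := by
      rw [Real.log_pow]
      push_cast
      nlinarith
    have h5 := (Real.log_le_log_iff (by exact_mod_cast hu) (by positivity)).1 h4
    exact_mod_cast h5
  constructor
  · refine key _ ?_ ((log_u0 h.inf hm h3).trans h1.1)
    have := le_u0 h3
    omega
  · refine key _ ?_ ((log_u0 h.inf (qn_le h.inf hm) (qn3 h.inf h3)).trans h1.2)
    have := le_u0 (qn3 h.inf h3)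
    rw [uB_eq]
    have := qn3 h.inf h3
    omega

open Classical in
/-- first step -/
lemma step0 (hW : 0 < W) (h : Nice μ ℱ A Q W ω) : ∀ ε : ℝ, 0 < ε → ∃ C : ℝ, ∀ᶠ n : ℕ in atTop,
      (1 - ε) * (W / (2 * Real.log n)) * (K0 A ω n).card - C * Real.log (n + 1) ≤
        (((K0 A ω n).filter (fun m => ω ∈ A (u0 A ω m))).card : ℝ) := by
  refine step (μ := μ) (ℱ := ℱ) Q hW h.dc (J0 A) (fun n => n ^ 9) h.l0 (K0 A ω) (u0 A ω) ?_ ?_ ?_ ?_ ?_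
  · intro n a ha b hb hab
    have ha' := (Finset.mem_filter.1 ha).2
    have hb' := (Finset.mem_filter.1 hb).2
    exact u0_inj h.inf ha'.1 hb'.1 ha'.2 hb'.2 hab
  · intro n m hm
    obtain ⟨h1, h2, h3⟩ := Finset.mem_filter.1 hm
    refine ⟨h2, (le_qn h.inf m).trans (le_u0 h3), h.free m h3, ?_⟩
    refine Set.mem_iUnion.2 ⟨qn A ω m, Set.mem_iUnion.2 ⟨m, ⟨h3, rfl, Finset.mem_range.1 h1⟩, ?_⟩⟩
    exact (EE_iff h.inf _ _).2 ⟨h2, rfl⟩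
  · filter_upwards [posT h] with n hn m hm
    obtain ⟨h1, h2, h3⟩ := Finset.mem_filter.1 hm
    exact (hn m (Finset.mem_range.1 h1).le h3).1
  · intro ε hε
    filter_upwards [logqn h ε hε] with n hn m hm
    obtain ⟨h1, h2, h3⟩ := Finset.mem_filter.1 hm
    exact (log_u0 h.inf (Finset.mem_range.1 h1).le h3).trans hn.1
  · intro n j _ hj _
    obtain ⟨q, hq⟩ := Set.mem_iUnion.1 hj
    obtain ⟨m, ⟨h1, h2, h3⟩, h4⟩ := Set.mem_iUnion.1 hq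
    obtain ⟨h5, rfl⟩ := (EE_iff h.inf _ _).1 h4
    exact ⟨m, Finset.mem_filter.2 ⟨Finset.mem_range.2 h3, h5, h1⟩, h2⟩

open Classical in
/-- second step -/
lemma stepA (hW : 0 < W) (h : Nice μ ℱ A Q W ω) : ∀ ε : ℝ, 0 < ε → ∃ C : ℝ, ∀ᶠ n : ℕ in atTop,
      (1 - ε) * (W / (2 * Real.log n)) * (KA A ω n).card - C * Real.log (n + 1) ≤
        (((KA A ω n).filter (fun m => ω ∈ A (u0 A ω m))).card : ℝ) := by
  refine step (μ := μ) (ℱ := ℱ) Q hW h.dc (JA A) (fun n => n ^ 9) h.lA (KA A ω) (u0 A ω) ?_ ?_ ?_ ?_ ?_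
  · intro n a ha b hb hab
    have ha' := KA_prop h.inf ha
    have hb' := KA_prop h.inf hb
    exact u0_inj h.inf ha'.2.2.2.1 hb'.2.2.2.1 ha'.2.2.2.2.1 hb'.2.2.2.2.1 hab
  · intro n m hm
    obtain ⟨h1, h2, h3, h4, h5, h6, h7⟩ := KA_prop h.inf hm
    refine ⟨h4, (le_qn h.inf m).trans (le_u0 h5), h.free m h5, ?_⟩
    refine Set.mem_iUnion.2 ⟨qn A ω m, Set.mem_iUnion.2 ⟨qn A ω (n - m), Set.mem_iUnion.2
      ⟨m, ⟨h6.2.1, h7, rfl, h1, h2⟩, ?_, ?_, ?_⟩⟩⟩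
    · exact (EE_iff h.inf _ _).2 ⟨h4, rfl⟩
    · exact (EE_iff h.inf _ _).2 ⟨h3, rfl⟩
    · exact h6.2.2
  · filter_upwards [posT h] with n hn m hm
    obtain ⟨h1, h2, h3, h4, h5, h6, h7⟩ := KA_prop h.inf hm
    exact (hn m h1.le h5).1
  · intro ε hε
    filter_upwards [logqn h ε hε] with n hn m hm
    obtain ⟨h1, h2, h3, h4, h5, h6, h7⟩ := KA_prop h.inf hm
    exact (log_u0 h.inf h1.le h5).trans hn.1
  · intro n j _ hj _
    obtain ⟨q, hq⟩ := Set.mem_iUnion.1 hj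
    obtain ⟨q', hq'⟩ := Set.mem_iUnion.1 hq
    obtain ⟨m, ⟨h1, h2, h3, h4, h5⟩, h6, h7, h8⟩ := Set.mem_iUnion.1 hq'
    obtain ⟨h9, rfl⟩ := (EE_iff h.inf _ _).1 h6
    obtain ⟨h10, rfl⟩ := (EE_iff h.inf _ _).1 h7
    exact ⟨m, Finset.mem_filter.2 ⟨Finset.mem_range.2 h4, h5, h10, h1, h8⟩, h3⟩

open Classical in
/-- third step -/
lemma stepB (hW : 0 < W) (h : Nice μ ℱ A Q W ω) : ∀ ε : ℝ, 0 < ε → ∃ C : ℝ, ∀ᶠ n : ℕ in atTop,
      (1 - ε) * (W / (2 * Real.log n)) * (KB A ω n).card - C * Real.log (n + 1) ≤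
        (((KB A ω n).filter (fun m => ω ∈ A (uB A ω m))).card : ℝ) := by
  refine step (μ := μ) (ℱ := ℱ) Q hW h.dc (JB A) (fun n => n ^ 9) h.lB (KB A ω) (uB A ω) ?_ ?_ ?_ ?_ ?_
  · intro n a ha b hb hab
    have ha' := KA_prop h.inf (Finset.mem_filter.1 ha).1
    have hb' := KA_prop h.inf (Finset.mem_filter.1 hb).1
    exact uB_inj h.inf ha'.2.2.2.1 hb'.2.2.2.1 ha'.2.2.2.2.1 hb'.2.2.2.2.1 hab
  · intro n m hm
    obtain ⟨hm1, hm2, hm3⟩ := Finset.mem_filter.1 hm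
    obtain ⟨h1, h2, h3, h4, h5, h6, h7⟩ := KA_prop h.inf hm1
    have h33 := qn3 h.inf h5
    refine ⟨h4, ?_, h.free _ h33, ?_⟩
    · rw [uB_eq]
      exact (le_qn h.inf m).trans ((le_qn h.inf _).trans (le_u0 h33))
    refine Set.mem_iUnion.2 ⟨qn A ω (qn A ω m), Set.mem_iUnion.2 ⟨qn A ω m, Set.mem_iUnion.2
      ⟨qn A ω (n - m), Set.mem_iUnion.2
      ⟨m, ⟨h6.2.1, h7, qn_lt h.inf h4 hm3, rfl, h1, h2⟩, ?_, ⟨?_, ?_⟩, ?_, ?_⟩⟩⟩⟩
    · exact (EE_iff h.inf _ _).2 ⟨by omega, rfl⟩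
    · exact (EE_iff h.inf _ _).2 ⟨h4, rfl⟩
    · exact hm2
    · exact (EE_iff h.inf _ _).2 ⟨h3, rfl⟩
    · exact h6.2.2
  · filter_upwards [posT h] with n hn m hm
    obtain ⟨h1, h2, h3, h4, h5, h6, h7⟩ := KA_prop h.inf (Finset.mem_filter.1 hm).1
    exact (hn m h1.le h5).2
  · intro ε hε
    filter_upwards [logqn h ε hε] with n hn m hm
    obtain ⟨h1, h2, h3, h4, h5, h6, h7⟩ := KA_prop h.inf (Finset.mem_filter.1 hm).1
    exact (log_u0 h.inf (qn_le h.inf h1.le) (qn3 h.inf h5)).trans hn.2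
  · intro n j _ hj _
    obtain ⟨r, hr⟩ := Set.mem_iUnion.1 hj
    obtain ⟨q, hq⟩ := Set.mem_iUnion.1 hr
    obtain ⟨q', hq'⟩ := Set.mem_iUnion.1 hq
    obtain ⟨m, ⟨h1, h2, hqr, h3, h4, h5⟩, h0, ⟨h6, h61⟩, h7, h8⟩ := Set.mem_iUnion.1 hq'
    obtain ⟨h9, rfl⟩ := (EE_iff h.inf _ _).1 h6
    obtain ⟨h10, rfl⟩ := (EE_iff h.inf _ _).1 h7
    obtain ⟨h11, rfl⟩ := (EE_iff h.inf _ _).1 h0
    have hlt : m < qn A ω m := by
      by_contra hcon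
      push Not at hcon
      have := qn_le h.inf hcon
      omega
    exact ⟨m, Finset.mem_filter.2 ⟨Finset.mem_filter.2 ⟨Finset.mem_range.2 h4, h5, h10, h1, h8⟩, h61, hlt⟩, h3⟩

end

end Pool.Agent.U958.SM
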