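import Mathlib
import Pool.Agent.U958.SM.Fin

set_option autoImplicit false

/-! # The final count (helper958) -/

open MeasureTheory Filter Topology

namespace Pool.Agent.U958.SM

open Pool.Agent.R528.RM Pool.Agent.U958.PF

variable {Ω : Type} {m0 : MeasurableSpace Ω} {μ : Measure Ω} [IsProbabilityMeasure μ]
  {ℱ : Filtration ℕ m0} {A : ℕ → Set Ω}

lemma logpow_div (k : ℕ) : Tendsto (fun n : ℕ => Real.log n ^ k / (n : ℝ)) atTop (𝓝 0) :=
  ((Real.isLittleO_pow_log_id_atTop (n := k)).tendsto_div_nhds_zero).comp tendsto_natCast_atTop_atTop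

lemma absorb (c C : ℝ) (hc : 0 < c) (k : ℕ) :
    ∀ᶠ n : ℕ in atTop, C * Real.log ((n : ℝ) + 1) ≤ c * ((n : ℝ) / Real.log n ^ k) := by
  have h1 := (logpow_div (k + 1)).const_mul (2 * |C|)
  rw [mul_zero] at h1
  filter_upwards [h1.eventually (gt_mem_nhds hc), logN.eventually_ge_atTop 1, eventually_ge_atTop 2]
    with n h2 h3 h4
  have hn : (2 : ℝ) ≤ n := by exact_mod_cast h4
  have hn0 : (0 : ℝ) < n := by linarith
  have hl : 0 < Real.log n := by linarith
  have h5 : Real.log ((n : ℝ) + 1) ≤ 2 * Real.log n := by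
    have h8 : Real.log ((n : ℝ) + 1) ≤ Real.log ((n : ℝ) ^ 2) := by
      apply Real.log_le_log (by linarith)
      nlinarith
    rw [Real.log_pow] at h8
    push_cast at h8
    exact h8
  have h6 : 0 ≤ Real.log ((n : ℝ) + 1) := Real.log_nonneg (by linarith)
  calc C * Real.log ((n : ℝ) + 1) ≤ |C| * Real.log ((n : ℝ) + 1) :=
        mul_le_mul_of_nonneg_right (le_abs_self C) h6
    _ ≤ |C| * (2 * Real.log n) := mul_le_mul_of_nonneg_left h5 (abs_nonneg C)
    _ = (2 * |C| * (Real.log n ^ (k + 1) / n)) * (n / Real.log n ^ k) := by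
        field_simp
        ring
    _ ≤ c * ((n : ℝ) / Real.log n ^ k) := by
        apply mul_le_mul_of_nonneg_right h2.le (by positivity)

open Classical in
lemma chain {Q : Finset ℕ} {W : ℝ} {ω : Ω} (hW : 0 < W) (h : Nice μ ℱ A Q W ω) (ε : ℝ) (hε : 0 < ε) :
    ∀ᶠ n : ℕ in atTop, (1 - ε) * (W ^ 3 / 16 * ((n : ℝ) / Real.log n ^ 3)) ≤
      (((KB A ω n).filter (fun m => ω ∈ A (uB A ω m))).card : ℝ) := by
  set d : ℝ := min ε 1 / 6 with hd
  have hd0 : 0 < d := by
    have : 0 < min ε 1 := lt_min hε one_pos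
    positivity
  have hd1 : d ≤ 1 / 6 := by
    have : min ε 1 ≤ 1 := min_le_right _ _
    linarith
  have hd2 : 6 * d ≤ ε := by
    have : min ε 1 ≤ ε := min_le_left _ _
    linarith
  have hd3 : 0 < 1 - d := by linarith
  -- step 0
  have E0 : ∀ᶠ n : ℕ in atTop, (1 - d) ^ 2 * (W / 2 * ((n : ℝ) / Real.log n)) ≤
      (((K0 A ω n).filter (fun m => ω ∈ A (u0 A ω m))).card : ℝ) := by
    obtain ⟨C, hC⟩ := step0 hW h d hd0
    have h1 : 0 < (1 - d) * d * (W / 2) := by positivity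
    filter_upwards [hC, absorb _ (C + (1 - d) * (W / 2) * 3) h1 1, logN.eventually_ge_atTop 1,
      eventually_ge_atTop 3] with n h2 h3 h4 h5
    have hl : 0 < Real.log n := by linarith
    have hn : (3 : ℝ) ≤ n := by exact_mod_cast h5
    have hl1 : 1 ≤ Real.log ((n : ℝ) + 1) := h4.trans (Real.log_le_log (by linarith) (by linarith))
    have hcard : (n : ℝ) - 3 ≤ ((K0 A ω n).card : ℝ) := by
      have h6 : Finset.Ico 3 n ⊆ K0 A ω n := by
        intro m hm
        have h7 := Finset.mem_Ico.1 hm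
        refine Finset.mem_filter.2 ⟨Finset.mem_range.2 h7.2, by omega, h7.1.trans (le_qn h.inf m)⟩
      have h8 := Finset.card_le_card h6
      rw [Nat.card_Ico] at h8
      have h9 : n ≤ (K0 A ω n).card + 3 := by omega
      have h10 : (n : ℝ) ≤ ((K0 A ω n).card : ℝ) + 3 := by exact_mod_cast h9
      linarith
    refine le_trans ?_ h2
    have h6 : (1 - d) * (W / (2 * Real.log n)) * ((n : ℝ) - 3) ≤ (1 - d) * (W / (2 * Real.log n)) * (K0 A ω n).card :=
      mul_le_mul_of_nonneg_left hcard (by positivity)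
    rw [pow_one] at h3
    have h7 : (1 - d) * (W / (2 * Real.log n)) * 3 ≤ (1 - d) * (W / 2) * 3 * Real.log ((n : ℝ) + 1) := by
      have h8 : W / (2 * Real.log n) ≤ W / 2 := by
        apply div_le_div_of_nonneg_left hW.le (by norm_num)
        linarith
      calc (1 - d) * (W / (2 * Real.log n)) * 3 ≤ (1 - d) * (W / 2) * 3 * 1 := by
            rw [mul_one]
            gcongr
        _ ≤ _ := mul_le_mul_of_nonneg_left hl1 (by positivity)
    have h9 : (1 - d) * (W / (2 * Real.log n)) * ((n : ℝ) - 3) =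
        (1 - d) * (W / 2 * ((n : ℝ) / Real.log n)) - (1 - d) * (W / (2 * Real.log n)) * 3 := by
      field_simp
    have h10 : (1 - d) ^ 2 * (W / 2 * ((n : ℝ) / Real.log n)) =
        (1 - d) * (W / 2 * ((n : ℝ) / Real.log n)) - (1 - d) * d * (W / 2) * ((n : ℝ) / Real.log n) := by ring
    linarith
  -- the number of pairs of indices
  have E1 : ∀ᶠ n : ℕ in atTop, (1 - d) ^ 2 * (W / 4 * ((n : ℝ) / Real.log n)) ≤ ((KA A ω n).card : ℝ) := by
    have ht : Tendsto (fun n : ℕ => (n + 1) / 2) atTop atTop := by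
      refine tendsto_atTop.2 fun b => ?_
      filter_upwards [eventually_ge_atTop (2 * b)] with n hn
      omega
    filter_upwards [ht.eventually E0, ht.eventually (logN.eventually_ge_atTop 1), eventually_gt_atTop 0]
      with n h1 h2 h3
    have hsub : (((K0 A ω ((n + 1) / 2)).filter (fun m => ω ∈ A (u0 A ω m))).image (fun k => n - k)) ⊆ KA A ω n := by
      intro m hm
      obtain ⟨k, hk, rfl⟩ := Finset.mem_image.1 hm
      obtain ⟨hk1, hk2⟩ := Finset.mem_filter.1 hk
      obtain ⟨hk3, hk4, hk5⟩ := Finset.mem_filter.1 hk1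
      have hk6 := Finset.mem_range.1 hk3
      refine Finset.mem_filter.2 ⟨Finset.mem_range.2 (by omega), by omega, ?_⟩
      rw [show n - (n - k) = k by omega]
      exact ⟨hk4, hk5, hk2⟩
    have hcard := Finset.card_le_card hsub
    rw [Finset.card_image_of_injOn (by
      intro a ha b hb hab
      have ha' := Finset.mem_range.1 (Finset.mem_filter.1 (Finset.mem_filter.1 ha).1).1
      have hb' := Finset.mem_range.1 (Finset.mem_filter.1 (Finset.mem_filter.1 hb).1).1
      simp only at hab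
      omega)] at hcard
    have h4 : (((K0 A ω ((n + 1) / 2)).filter (fun m => ω ∈ A (u0 A ω m))).card : ℝ) ≤ ((KA A ω n).card : ℝ) := by
      exact_mod_cast hcard
    refine le_trans (le_trans ?_ h1) h4
    have h5 : (n : ℝ) / 2 ≤ (((n + 1) / 2 : ℕ) : ℝ) := by
      have : n ≤ 2 * ((n + 1) / 2) := by omega
      have : (n : ℝ) ≤ 2 * (((n + 1) / 2 : ℕ) : ℝ) := by exact_mod_cast this
      linarith
    have h6 : (((n + 1) / 2 : ℕ) : ℝ) ≤ n := by
      have : (n + 1) / 2 ≤ n := by omega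
      exact_mod_cast this
    have hn0 : (0 : ℝ) < n := by exact_mod_cast h3
    have h7 : Real.log (((n + 1) / 2 : ℕ) : ℝ) ≤ Real.log n := Real.log_le_log (by linarith) h6
    have h8 : (n : ℝ) / 2 / Real.log n ≤ (((n + 1) / 2 : ℕ) : ℝ) / Real.log (((n + 1) / 2 : ℕ) : ℝ) := by
      have : 0 < Real.log (((n + 1) / 2 : ℕ) : ℝ) := by linarith
      gcongr
    calc (1 - d) ^ 2 * (W / 4 * ((n : ℝ) / Real.log n)) = (1 - d) ^ 2 * (W / 2 * ((n : ℝ) / 2 / Real.log n)) := by ring
      _ ≤ _ := by gcongr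
  -- pairs
  have E2 : ∀ᶠ n : ℕ in atTop, (1 - d) ^ 4 * (W ^ 2 / 8 * ((n : ℝ) / Real.log n ^ 2)) ≤
      (((KA A ω n).filter (fun m => ω ∈ A (u0 A ω m))).card : ℝ) := by
    obtain ⟨C, hC⟩ := stepA hW h d hd0
    have h1 : 0 < (1 - d) ^ 3 * d * (W ^ 2 / 8) := by positivity
    filter_upwards [hC, absorb _ C h1 2, E1, logN.eventually_ge_atTop 1] with n h2 h3 h4 h5
    have hl : 0 < Real.log n := by linarith
    refine le_trans ?_ h2
    have h6 : (1 - d) * (W / (2 * Real.log n)) * ((1 - d) ^ 2 * (W / 4 * ((n : ℝ) / Real.log n))) ≤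
        (1 - d) * (W / (2 * Real.log n)) * (KA A ω n).card :=
      mul_le_mul_of_nonneg_left h4 (by positivity)
    have h7 : (1 - d) * (W / (2 * Real.log n)) * ((1 - d) ^ 2 * (W / 4 * ((n : ℝ) / Real.log n))) =
        (1 - d) ^ 3 * (W ^ 2 / 8 * ((n : ℝ) / Real.log n ^ 2)) := by
      field_simp
      ring
    have h8 : (1 - d) ^ 4 * (W ^ 2 / 8 * ((n : ℝ) / Real.log n ^ 2)) =
        (1 - d) ^ 3 * (W ^ 2 / 8 * ((n : ℝ) / Real.log n ^ 2)) -
          (1 - d) ^ 3 * d * (W ^ 2 / 8) * ((n : ℝ) / Real.log n ^ 2) := by ring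
    linarith
  -- triples
  obtain ⟨m2, hm2⟩ := eventually_atTop.1 h.gap
  obtain ⟨C, hC⟩ := stepB hW h d hd0
  have h1 : 0 < (1 - d) ^ 5 * d * (W ^ 3 / 16) := by positivity
  have hber : 1 - ε ≤ (1 - d) ^ 6 := by
    have := one_add_mul_le_pow (show (-2 : ℝ) ≤ -d by linarith) 6
    push_cast at this
    have e : (1 + -d) = 1 - d := by ring
    rw [e] at this
    linarith
  filter_upwards [hC, absorb _ (C + (1 - d) * (W / 2) * m2) h1 3, E2, logN.eventually_ge_atTop 1,
    eventually_gt_atTop 0] with n h2 h3 h4 h5 hn0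
  have hl : 0 < Real.log n := by linarith
  have hn : (0 : ℝ) < n := by exact_mod_cast hn0
  have hl1 : 1 ≤ Real.log ((n : ℝ) + 1) := h5.trans (Real.log_le_log (by linarith) (by linarith))
  have hcard : (((KA A ω n).filter (fun m => ω ∈ A (u0 A ω m))).card : ℝ) - m2 ≤ ((KB A ω n).card : ℝ) := by
    have h6 : (KA A ω n).filter (fun m => ω ∈ A (u0 A ω m)) ⊆ KB A ω n ∪ Finset.range m2 := by
      intro m hm
      obtain ⟨h7, h8⟩ := Finset.mem_filter.1 hm
      by_cases h9 : m2 ≤ m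
      · exact Finset.mem_union_left _ (Finset.mem_filter.2 ⟨h7, h8, hm2 m h9⟩)
      · exact Finset.mem_union_right _ (Finset.mem_range.2 (by omega))
    have h7 := (Finset.card_le_card h6).trans (Finset.card_union_le _ _)
    rw [Finset.card_range] at h7
    have h8 : (((KA A ω n).filter (fun m => ω ∈ A (u0 A ω m))).card : ℝ) ≤ ((KB A ω n).card : ℝ) + m2 := by
      exact_mod_cast h7
    linarith
  refine le_trans ?_ h2
  have h6 : (1 - d) * (W / (2 * Real.log n)) * ((1 - d) ^ 4 * (W ^ 2 / 8 * ((n : ℝ) / Real.log n ^ 2)) - m2) ≤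
      (1 - d) * (W / (2 * Real.log n)) * (KB A ω n).card :=
    mul_le_mul_of_nonneg_left (by linarith) (by positivity)
  have h7 : (1 - d) * (W / (2 * Real.log n)) * ((1 - d) ^ 4 * (W ^ 2 / 8 * ((n : ℝ) / Real.log n ^ 2)) - m2) =
      (1 - d) ^ 5 * (W ^ 3 / 16 * ((n : ℝ) / Real.log n ^ 3)) - (1 - d) * (W / (2 * Real.log n)) * m2 := by
    field_simp
    ring
  have h8 : (1 - d) * (W / (2 * Real.log n)) * m2 ≤ (1 - d) * (W / 2) * m2 * Real.log ((n : ℝ) + 1) := by
    have h8 : W / (2 * Real.log n) ≤ W / 2 := by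
      apply div_le_div_of_nonneg_left hW.le (by norm_num)
      linarith
    have hm0 : (0 : ℝ) ≤ m2 := Nat.cast_nonneg _
    calc (1 - d) * (W / (2 * Real.log n)) * m2 ≤ (1 - d) * (W / 2) * m2 * 1 := by
          rw [mul_one]
          gcongr
      _ ≤ _ := mul_le_mul_of_nonneg_left hl1 (by positivity)
  have h9 : (1 - d) ^ 6 * (W ^ 3 / 16 * ((n : ℝ) / Real.log n ^ 3)) =
      (1 - d) ^ 5 * (W ^ 3 / 16 * ((n : ℝ) / Real.log n ^ 3)) -
        (1 - d) ^ 5 * d * (W ^ 3 / 16) * ((n : ℝ) / Real.log n ^ 3) := by ring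
  have h10 : (1 - ε) * (W ^ 3 / 16 * ((n : ℝ) / Real.log n ^ 3)) ≤
      (1 - d) ^ 6 * (W ^ 3 / 16 * ((n : ℝ) / Real.log n ^ 3)) :=
    mul_le_mul_of_nonneg_right hber (by positivity)
  linarith

end Pool.Agent.U958.SM
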