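import Mathlib
import Pool.Agent.U958.SM.Chain

set_option autoImplicit false

/-! # The almost sure properties (helper958) -/

open MeasureTheory Filter Topology

namespace Pool.Agent.U958.SM

open Pool.Agent.R528.RM Pool.Agent.U958.PF

variable {Ω : Type} {m0 : MeasurableSpace Ω} {μ : Measure Ω} [IsProbabilityMeasure μ]
  {ℱ : Filtration ℕ m0} {A : ℕ → Set Ω}

omit [IsProbabilityMeasure μ] in
lemma gap {ω : Ω} (hinf : (setOf (PP A ω)).Infinite)
    (hdc0 : Tendsto (fun j => dc μ ℱ A j ω) atTop (𝓝 0))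
    (hup : ∀ᶠ n : ℕ in atTop, 1 * Xs A (fun _ => Set.univ) n ω -
      (Real.exp 1 - 1) * Ds μ ℱ A (fun _ => Set.univ) n ω ≤ 2 * Real.log (n + 1)) :
    ∀ᶠ m : ℕ in atTop, m < qn A ω m := by
  classical
  have h1 := hdc0.cesaro
  have h2 : ∀ n, Ds μ ℱ A (fun _ => Set.univ) n ω = ∑ i ∈ Finset.range n, dc μ ℱ A i ω := by
    intro n
    unfold Ds
    refine Finset.sum_congr rfl fun i _ => ?_
    simp
  have h3 : Tendsto (fun n : ℕ => Real.log ((n : ℝ) + 1) / n) atTop (𝓝 0) := by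
    have h4 := (logpow_div 1).const_mul 2
    rw [mul_zero] at h4
    refine squeeze_zero' ?_ ?_ h4
    · filter_upwards with n
      have : 0 ≤ Real.log ((n : ℝ) + 1) := Real.log_nonneg (by
        have : (0 : ℝ) ≤ n := Nat.cast_nonneg n
        linarith)
      positivity
    · filter_upwards [eventually_ge_atTop 2] with n hn
      have hn' : (2 : ℝ) ≤ n := by exact_mod_cast hn
      have h8 : Real.log ((n : ℝ) + 1) ≤ Real.log ((n : ℝ) ^ 2) := by
        apply Real.log_le_log (by linarith)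
        nlinarith
      rw [Real.log_pow] at h8
      push_cast at h8
      rw [pow_one, ← mul_div_assoc]
      exact div_le_div_of_nonneg_right h8 (by linarith)
  have h4 : Tendsto (fun n : ℕ => (Real.exp 1 - 1) * ((n : ℝ)⁻¹ * ∑ i ∈ Finset.range n, dc μ ℱ A i ω) +
      2 * (Real.log ((n : ℝ) + 1) / n)) atTop (𝓝 ((Real.exp 1 - 1) * 0 + 2 * 0)) :=
    (h1.const_mul _).add (h3.const_mul _)
  simp only [mul_zero, add_zero] at h4
  have h5 : ∀ᶠ n : ℕ in atTop, (cn A (n + 1) ω : ℝ) < n := by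
    filter_upwards [h4.eventually (gt_mem_nhds one_pos), hup, eventually_gt_atTop 0] with n h6 h7 h8
    have hn : (0 : ℝ) < n := by exact_mod_cast h8
    rw [Xs_univ, h2, one_mul] at h7
    have h9 : (cn A (n + 1) ω : ℝ) / n ≤ (Real.exp 1 - 1) * ((n : ℝ)⁻¹ * ∑ i ∈ Finset.range n, dc μ ℱ A i ω) +
      2 * (Real.log ((n : ℝ) + 1) / n) := by
      rw [div_le_iff₀ hn]
      have e : ((Real.exp 1 - 1) * ((n : ℝ)⁻¹ * ∑ i ∈ Finset.range n, dc μ ℱ A i ω) +
        2 * (Real.log ((n : ℝ) + 1) / n)) * n = (Real.exp 1 - 1) * (∑ i ∈ Finset.range n, dc μ ℱ A i ω) +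
        2 * Real.log ((n : ℝ) + 1) := by
        field_simp
      rw [e]
      linarith
    have h10 := lt_of_le_of_lt h9 h6
    rwa [div_lt_one hn] at h10
  filter_upwards [h5, eventually_gt_atTop 0] with m h6 h7
  by_contra h8
  push Not at h8
  have h9 : qn A ω m = m := le_antisymm h8 (le_qn hinf m)
  have h10 : cn A m ω = m - 1 := by
    have : cn A (qn A ω m) ω = m - 1 := by
      unfold cn qn
      exact Nat.count_nth_of_infinite hinf _
    rwa [h9] at this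
  have h11 : cn A (m + 1) ω = m := by
    have hp : PP A ω m := by
      have := qn_mem hinf m
      rwa [h9] at this
    have : cn A (m + 1) ω = cn A m ω + 1 := by
      unfold cn
      rw [Nat.count_succ, if_pos hp]
    omega
  rw [h11] at h6
  exact lt_irrefl _ h6

theorem nice (hA : ∀ n, MeasurableSet[ℱ n] (A n)) (Q : Finset ℕ) (hQ : ∀ p ∈ Q, p.Prime)
    (hQ2 : ∀ p ∈ Q, p = 2 ∨ ¬ IsSquare (2 : ZMod p))
    (hcop : ∀ n, ¬ Free Q n → A n = ∅)
    (hd : ∀ᵐ ω ∂μ, Tendsto (fun n : ℕ => dens μ ℱ A n ω * Real.log n)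
      (atTop ⊓ 𝓟 {n : ℕ | Free Q (n + 1)}) (𝓝 (WQ Q))) :
    ∀ᵐ ω ∂μ, Nice μ ℱ A Q (WQ Q) ω := by
  have hW := WQ_pos Q hQ
  have hU : ∀ (n j : ℕ), MeasurableSet[ℱ j] ((fun _ _ => Set.univ : ℕ → ℕ → Set Ω) n (j + 1)) :=
    fun n j => @MeasurableSet.univ _ (ℱ j)
  have a1 := pred_lower (μ := μ) hA (fun _ _ => Set.univ) hU (fun n => n)
  have a2 := pred_lower (μ := μ) hA (J0 A) (J0_meas hA) (fun n => n ^ 9)
  have a3 := pred_lower (μ := μ) hA (JA A) (JA_meas hA) (fun n => n ^ 9)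
  have a4 := pred_lower (μ := μ) hA (JB A) (JB_meas hA) (fun n => n ^ 9)
  have a5 := bc (μ := μ) hA (fun _ _ => Set.univ) hU (fun n => n) 1
  have a6 := profileQ Q hQ hcop hd
  have a7 : ∀ᵐ ω ∂μ, ∀ n, dc μ ℱ A n ω = dens μ ℱ A n ω := by
    rw [ae_all_iff]
    exact fun n => dc_eq hA n
  filter_upwards [a1, a2, a3, a4, a5, a6, a7] with ω b1 b2 b3 b4 b5 b6 b7
  have hrho : ∀ᶠ j : ℕ in atTop, WQ Q / Real.log ((j + 1 : ℕ) : ℝ) < 1 :=
    ((logN.comp (tendsto_add_atTop_nat 1)).const_div_atTop (WQ Q)).eventually (gt_mem_nhds one_pos)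
  have hdc : ∀ ε : ℝ, 0 < ε → ∀ᶠ j : ℕ in atTop, Free Q (j + 1) →
      (1 - ε) * (WQ Q / Real.log ((j + 1 : ℕ) : ℝ)) ≤ dc μ ℱ A j ω := by
    intro ε hε
    filter_upwards [b6 ε hε, hrho] with j h1 h2 h3
    have e1 : rhoQ Q (j + 1) = WQ Q / Real.log ((j + 1 : ℕ) : ℝ) := by
      unfold rhoQ
      rw [if_pos h3, min_eq_right h2.le]
    rw [e1] at h1
    rw [b7 j]
    have := (abs_le.1 h1).1
    linarith
  have hdc0 : Tendsto (fun j => dc μ ℱ A j ω) atTop (𝓝 0) := by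
    have h1 : Tendsto (fun j : ℕ => 2 * (WQ Q / Real.log ((j + 1 : ℕ) : ℝ))) atTop (𝓝 0) := by
      have := ((logN.comp (tendsto_add_atTop_nat 1)).const_div_atTop (WQ Q)).const_mul 2
      rwa [mul_zero] at this
    refine squeeze_zero' (Eventually.of_forall fun j => dc_nonneg j ω) ?_ h1
    filter_upwards [b6 1 one_pos, eventually_gt_atTop 0] with j h2 h3
    rw [b7 j]
    have h4 := (abs_le.1 h2).2
    have h5 : rhoQ Q (j + 1) ≤ WQ Q / Real.log ((j + 1 : ℕ) : ℝ) := by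
      unfold rhoQ
      have : 0 ≤ WQ Q / Real.log ((j + 1 : ℕ) : ℝ) := div_nonneg hW.le (Real.log_natCast_nonneg _)
      split_ifs
      · exact min_le_right _ _
      · exact this
    linarith
  have hg : ∀ a : ℝ, a < 1 → ∀ᶠ n : ℕ in atTop, (n : ℝ) ^ a ≤ cn A (n + 1) ω :=
    fun a ha => grow (μ := μ) (ℱ := ℱ) Q hQ hW hdc b1 a ha
  have hinf : (setOf (PP A ω)).Infinite := inf_of_grow (hg (1 / 2) (by norm_num))
  refine ⟨hinf, hdc, fun ε hε => qn_log hinf hg ε hε, gap hinf hdc0 b5, ?_, b2, b3, b4⟩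
  intro m h3 p hp hdvd
  have hpp := hQ p hp
  have hmem := qn_mem hinf m
  have hfree : Free Q (qn A ω m) := by
    by_contra hcon
    have := hcop _ hcon
    have h5 := hmem.2
    rw [this] at h5
    exact h5
  have hnd := hfree p hp
  set q := qn A ω m with hq
  have h9 : 2 ≤ q ^ 2 := by nlinarith
  have hu : u0 A ω m = q ^ 2 - 2 := rfl
  rw [hu] at hdvd
  rcases hQ2 p hp with rfl | h2
  · have h6 : 2 ∣ q ^ 2 := by
      omega
    exact hnd (Nat.prime_two.dvd_of_dvd_pow h6)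
  · have : Fact p.Prime := ⟨hpp⟩
    apply h2
    have h6 : ((q ^ 2 - 2 : ℕ) : ZMod p) = 0 := (ZMod.natCast_eq_zero_iff _ _).2 hdvd
    rw [Nat.cast_sub h9] at h6
    push_cast at h6
    exact ⟨(q : ZMod p), by rw [← sub_eq_zero.1 h6]; ring⟩

end Pool.Agent.U958.SM
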